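import Pool.Agent.KO.Q.Spec

/-!
Project KO, block Q, row Q02: the expansion of an invariant analytic function in words.
-/

set_option autoImplicit false
set_option maxHeartbeats 400000

open Filter Topology

namespace Pool.Agent.KO.Q

open Classical in
theorem q02_term {ι : Type} [Fintype ι] (m : ℕ)
    (f : ContinuousMultilinearMap ℂ (fun _ : Fin m => (ι → ℂ)) ℂ) (q : ι → ℂ) :
    f (fun _ => q) = ∑ w : Fin m → ι, f (fun i => Pi.single (w i) 1) * ∏ i, q (w i) := by
  have h1 : (fun _ : Fin m => q) = fun _ : Fin m => ∑ j : ι, q j • (Pi.single j 1 : ι → ℂ) := by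
    funext i
    funext k
    simp [Finset.sum_apply, Pi.single_apply]
  rw [h1, ContinuousMultilinearMap.map_sum]
  refine Finset.sum_congr rfl fun w _ => ?_
  rw [ContinuousMultilinearMap.map_smul_univ, smul_eq_mul, mul_comm]

open Classical in
theorem q02_words {ι : Type} [Fintype ι] {F : (ι → ℂ) → ℂ} (hF : AnalyticAt ℂ F 0) :
    ∃ (σ : ℝ) (c : Wd ι → ℂ), 0 < σ ∧ σ < 1 ∧ (Summable fun x : Wd ι => ‖c x‖ * σ ^ x.1) ∧
      ∀ q : ι → ℂ, ‖q‖ < σ → HasSum (fun x : Wd ι => c x * ∏ i, q (x.2 i)) (F q) := by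
  obtain ⟨p, r, hp⟩ := hF
  obtain ⟨s, hs0, hsr⟩ := ENNReal.lt_iff_exists_nnreal_btwn.mp hp.r_pos
  have hs0' : 0 < (s : ℝ) := by
    have := ENNReal.coe_pos.mp hs0
    exact_mod_cast this
  have hsum : Summable fun n => ‖p n‖ * (s : ℝ) ^ n :=
    p.summable_norm_mul_pow (lt_of_lt_of_le hsr hp.r_le)
  set N : ℝ := (Fintype.card ι : ℝ) with hN
  have hN0 : 0 ≤ N := Nat.cast_nonneg _
  set σ : ℝ := min (s : ℝ) (1 / 2) / (N + 1) with hσ
  have hm : 0 < min (s : ℝ) (1 / 2) := lt_min hs0' (by norm_num)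
  have hσ0 : 0 < σ := by positivity
  have hσs : σ ≤ min (s : ℝ) (1 / 2) := div_le_self hm.le (by linarith)
  have hσ1 : σ < 1 := lt_of_le_of_lt (hσs.trans (min_le_right _ _)) (by norm_num)
  have hNσ : N * σ ≤ s := by
    have h1 : N * σ ≤ min (s : ℝ) (1 / 2) := by
      rw [hσ, mul_div_assoc', div_le_iff₀ (by linarith)]
      nlinarith
    exact h1.trans (min_le_left _ _)
  have hσs' : σ ≤ s := hσs.trans (min_le_left _ _)
  set c : Wd ι → ℂ := fun x => p x.1 (fun i => Pi.single (x.2 i) 1) with hc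
  have hcn : ∀ x : Wd ι, ‖c x‖ ≤ ‖p x.1‖ := by
    intro x
    refine ((p x.1).le_opNorm _).trans ?_
    have : ∏ i, ‖(Pi.single (x.2 i) 1 : ι → ℂ)‖ ≤ 1 := by
      refine Finset.prod_le_one (fun i _ => norm_nonneg _) fun i _ => ?_
      refine (pi_norm_le_iff_of_nonneg zero_le_one).mpr fun j => ?_
      by_cases h : j = x.2 i
      · subst h
        simp
      · simp [Pi.single_eq_of_ne h]
    calc ‖p x.1‖ * ∏ i, ‖(Pi.single (x.2 i) 1 : ι → ℂ)‖ ≤ ‖p x.1‖ * 1 :=
          mul_le_mul_of_nonneg_left this (norm_nonneg _)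
      _ = ‖p x.1‖ := mul_one _
  have hS : Summable fun x : Wd ι => ‖c x‖ * σ ^ x.1 := by
    refine (summable_sigma_of_nonneg fun x => by positivity).mpr ⟨fun m => ?_, ?_⟩
    · exact Summable.of_finite
    · refine Summable.of_nonneg_of_le (fun m => tsum_nonneg fun w => by positivity)
        (fun m => ?_) hsum
      rw [tsum_fintype]
      calc ∑ w : Fin m → ι, ‖c ⟨m, w⟩‖ * σ ^ m ≤ ∑ w : Fin m → ι, ‖p m‖ * σ ^ m :=
            Finset.sum_le_sum fun w _ =>
              mul_le_mul_of_nonneg_right (hcn ⟨m, w⟩) (by positivity)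
        _ = ‖p m‖ * (N * σ) ^ m := by
            rw [Finset.sum_const, Finset.card_univ, nsmul_eq_mul, mul_pow]
            have : (Fintype.card (Fin m → ι) : ℝ) = N ^ m := by
              rw [Fintype.card_fun, Fintype.card_fin]
              push_cast
              rfl
            rw [this]
            ring
        _ ≤ ‖p m‖ * (s : ℝ) ^ m :=
            mul_le_mul_of_nonneg_left (pow_le_pow_left₀ (by positivity) hNσ m) (norm_nonneg _)
  refine ⟨σ, c, hσ0, hσ1, hS, fun q hq => ?_⟩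
  have hqr : q ∈ Metric.eball (0 : ι → ℂ) r := by
    rw [Metric.mem_eball, edist_zero_right]
    refine lt_of_le_of_lt ?_ hsr
    rw [← ofReal_norm, ← ENNReal.ofReal_coe_nnreal]
    exact ENNReal.ofReal_le_ofReal (hq.le.trans hσs')
  have hs1 : HasSum (fun n => p n fun _ => q) (F q) := by
    have := hp.hasSum hqr
    rwa [zero_add] at this
  refine HasSum.sigma_of_hasSum hs1 (fun m => ?_) ?_
  · rw [q02_term]
    exact hasSum_fintype _
  · refine Summable.of_norm_bounded hS fun x => ?_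
    rw [norm_mul]
    refine mul_le_mul_of_nonneg_left ?_ (norm_nonneg _)
    rw [norm_prod]
    calc ∏ i, ‖q (x.2 i)‖ ≤ ∏ i : Fin x.1, σ :=
          Finset.prod_le_prod (fun i _ => norm_nonneg _)
            fun i _ => (norm_le_pi_norm q _).trans hq.le
      _ = σ ^ x.1 := by simp

theorem q02_norm_rot {ι : Type} [Fintype ι] {a : ℕ} (ha : 0 < a) (β : ι → ℕ) {ζ : ℂ}
    (hζ : ζ ^ a = 1) (q : ι → ℂ) : ‖rot β ζ q‖ ≤ ‖q‖ := by
  have h1 : ‖ζ‖ = 1 := Complex.norm_eq_one_of_pow_eq_one hζ ha.ne'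
  refine (pi_norm_le_iff_of_nonneg (norm_nonneg _)).mpr fun j => ?_
  rw [rot, norm_mul, norm_pow, h1, one_pow, one_mul]
  exact norm_le_pi_norm q j

theorem sp_exp : SpExp := by
  intro ι _ a β ha F hF hinv
  obtain ⟨σ, c, hσ0, hσ1, hS, hsum⟩ := q02_words hF
  classical
  refine ⟨σ, fun x => if a ∣ ∑ i, β (x.2 i) then c x else 0, hσ0, hσ1, ?_, ?_, ?_⟩
  · refine Summable.of_nonneg_of_le (fun x => by positivity) (fun x => ?_) hS
    refine mul_le_mul_of_nonneg_right ?_ (by positivity)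
    dsimp only
    split_ifs
    · exact le_rfl
    · simp
  · intro x hx
    simp only [hx, if_false]
  · obtain ⟨ζ, hζ⟩ : ∃ ζ : ℂ, IsPrimitiveRoot ζ a :=
      ⟨_, Complex.isPrimitiveRoot_exp a ha.ne'⟩
    have hz : ∀ k : ℕ, (ζ ^ k) ^ a = 1 := fun k => by
      rw [← pow_mul, mul_comm, pow_mul, hζ.pow_eq_one, one_pow]
    have hev : ∀ᶠ q in 𝓝 (0 : ι → ℂ), ∀ k ∈ Finset.range a, F (rot β (ζ ^ k) q) = F q :=
      (Filter.eventually_all_finset (Finset.range a)).mpr fun k _ => hinv _ (hz k)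
    have hball : ∀ᶠ q in 𝓝 (0 : ι → ℂ), ‖q‖ < σ := by
      have := Metric.ball_mem_nhds (0 : ι → ℂ) hσ0
      filter_upwards [this] with q hq
      simpa using hq
    filter_upwards [hev, hball] with q hq1 hq2
    have h1 : ∀ k ∈ Finset.range a,
        HasSum (fun x : Wd ι => c x * ∏ i, rot β (ζ ^ k) q (x.2 i)) (F q) := by
      intro k hk
      have := hsum (rot β (ζ ^ k) q) (lt_of_le_of_lt (q02_norm_rot ha β (hz k) q) hq2)
      rwa [hq1 k hk] at this
    have h2 := (hasSum_sum h1).mul_left ((a : ℂ)⁻¹)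
    have ha' : (a : ℂ) ≠ 0 := by exact_mod_cast ha.ne'
    rw [Finset.sum_const, Finset.card_range, nsmul_eq_mul, inv_mul_cancel_left₀ ha'] at h2
    have key : ∀ x : Wd ι, (a : ℂ)⁻¹ * ∑ k ∈ Finset.range a,
        c x * ∏ i, rot β (ζ ^ k) q (x.2 i) =
        (if a ∣ ∑ i, β (x.2 i) then c x else 0) * ∏ i, q (x.2 i) := by
      intro x
      have e1 : ∀ k ∈ Finset.range a, c x * ∏ i, rot β (ζ ^ k) q (x.2 i) =
          (c x * ∏ i, q (x.2 i)) * (ζ ^ ∑ i, β (x.2 i)) ^ k := by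
        intro k _
        simp only [rot]
        rw [Finset.prod_mul_distrib, Finset.prod_pow_eq_pow_sum, ← pow_mul, ← pow_mul,
          mul_comm k]
        ring
      rw [Finset.sum_congr rfl e1, ← Finset.mul_sum]
      split_ifs with hd
      · have e2 : ζ ^ ∑ i, β (x.2 i) = 1 := (hζ.pow_eq_one_iff_dvd _).mpr hd
        rw [e2]
        simp only [one_pow, Finset.sum_const, Finset.card_range, nsmul_eq_mul, mul_one]
        field_simp
      · have e2 : ζ ^ ∑ i, β (x.2 i) ≠ 1 := fun h => hd ((hζ.pow_eq_one_iff_dvd _).mp h)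
        have e3 : (ζ ^ ∑ i, β (x.2 i)) ^ a = 1 := by
          rw [← pow_mul, mul_comm, pow_mul, hζ.pow_eq_one, one_pow]
        have e4 : ∑ k ∈ Finset.range a, (ζ ^ ∑ i, β (x.2 i)) ^ k = 0 := by
          have e5 := mul_geom_sum (ζ ^ ∑ i, β (x.2 i)) a
          rw [e3, sub_self] at e5
          exact (mul_eq_zero.mp e5).resolve_left (sub_ne_zero.mpr e2)
        rw [e4, mul_zero, mul_zero, zero_mul]
    rw [← funext key]
    exact h2

end Pool.Agent.KO.Q
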