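import Pool.Agent.KO.Q.Spec

/-!
Project KO, block Q, row Q11: the fibres of the quotient map are the orbits (helper79).
-/

set_option autoImplicit false
set_option maxHeartbeats 400000

open Filter Topology

namespace Pool.Agent.KO.Q

theorem q11_rot {ι : Type} [Fintype ι] (a : ℕ) (β : ι → ℕ) (ζ : ℂ) (hζ : ζ ^ a = 1)
    (p : ι → ℂ) : cc a β (rot β ζ p) = cc a β p := by
  funext x
  unfold cc rot
  have h1 : ∀ j, (ζ ^ β j * p j) ^ (x.γ j : ℕ) = ζ ^ ((x.γ j : ℕ) * β j) * p j ^ (x.γ j : ℕ) := by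
    intro j
    rw [mul_pow, ← pow_mul, mul_comm (β j)]
  rw [Finset.prod_congr rfl fun j _ => h1 j, Finset.prod_mul_distrib, Finset.prod_pow_eq_pow_sum]
  obtain ⟨m, hm⟩ := x.dvd
  rw [hm, pow_mul, hζ, one_pow, one_mul]

/-- the polynomial -/
noncomputable def q11_P {ι : Type} [Fintype ι] (a : ℕ) (β : ι → ℕ) (l : ι → ℂ) (t : ℂ) :
    MvPolynomial ι ℂ :=
  ∏ ζ ∈ Polynomial.nthRootsFinset a (1 : ℂ),
    (MvPolynomial.C t - ∑ j, MvPolynomial.C (l j * ζ ^ β j) * MvPolynomial.X j)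

theorem q11_eval {ι : Type} [Fintype ι] (a : ℕ) (β : ι → ℕ) (l : ι → ℂ) (t : ℂ) (p : ι → ℂ) :
    MvPolynomial.eval p (q11_P a β l t) =
      ∏ ζ ∈ Polynomial.nthRootsFinset a (1 : ℂ), (t - ∑ j, l j * rot β ζ p j) := by
  unfold q11_P rot
  rw [map_prod]
  refine Finset.prod_congr rfl fun ζ _ => ?_
  rw [map_sub, MvPolynomial.eval_C, map_sum]
  congr 1
  refine Finset.sum_congr rfl fun j _ => ?_
  rw [map_mul, MvPolynomial.eval_C, MvPolynomial.eval_X, mul_assoc]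

theorem q11_inv {ι : Type} [Fintype ι] (a : ℕ) (β : ι → ℕ) (ha : 0 < a) (l : ι → ℂ) (t : ℂ)
    (ζ : ℂ) (hζ : ζ ^ a = 1) :
    MvPolynomial.aeval (fun j => MvPolynomial.C (ζ ^ β j) * MvPolynomial.X j) (q11_P a β l t) =
      q11_P a β l t := by
  have hζ0 : ζ ≠ 0 := by
    rintro rfl
    rw [zero_pow ha.ne'] at hζ
    exact zero_ne_one hζ
  unfold q11_P
  rw [map_prod]
  refine Finset.prod_nbij' (fun ξ => ξ * ζ) (fun ξ => ξ * ζ⁻¹) ?_ ?_ ?_ ?_ ?_
  · intro ξ hξ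
    rw [Polynomial.mem_nthRootsFinset ha] at hξ ⊢
    rw [mul_pow, hξ, hζ, one_mul]
  · intro ξ hξ
    rw [Polynomial.mem_nthRootsFinset ha] at hξ ⊢
    rw [mul_pow, hξ, inv_pow, hζ, inv_one, one_mul]
  · intro ξ _
    rw [mul_assoc, mul_inv_cancel₀ hζ0, mul_one]
  · intro ξ _
    rw [mul_assoc, inv_mul_cancel₀ hζ0, mul_one]
  · intro ξ _
    rw [map_sub, map_sum, MvPolynomial.algHom_C, MvPolynomial.algebraMap_eq]
    congr 1
    refine Finset.sum_congr rfl fun j _ => ?_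
    rw [map_mul, MvPolynomial.algHom_C, MvPolynomial.algebraMap_eq, MvPolynomial.aeval_X,
      ← mul_assoc, ← MvPolynomial.C_mul]
    congr 2
    rw [mul_pow]
    ring

theorem sp_fib (h9 : SpPoly) (h10 : SpOrb) : SpFib := by
  intro ι _ _ a β ha p q
  constructor
  · intro h
    refine h10 ι a β ha p q fun l => ?_
    obtain ⟨Q, hQ⟩ := h9 ι a β ha (q11_P a β l (∑ j, l j * q j))
      (fun ζ hζ => q11_inv a β ha l _ ζ hζ)
    have h1 : MvPolynomial.eval p (q11_P a β l (∑ j, l j * q j)) =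
        MvPolynomial.eval q (q11_P a β l (∑ j, l j * q j)) := by
      rw [hQ, hQ, h]
    rw [q11_eval, q11_eval] at h1
    have h2 : ∏ ζ ∈ Polynomial.nthRootsFinset a (1 : ℂ),
        ((∑ j, l j * q j) - ∑ j, l j * rot β ζ q j) = 0 := by
      refine Finset.prod_eq_zero (i := 1) ?_ ?_
      · rw [Polynomial.mem_nthRootsFinset ha, one_pow]
      · unfold rot
        simp
    rw [h2, Finset.prod_eq_zero_iff] at h1
    obtain ⟨ζ, hζ, hz⟩ := h1
    rw [Polynomial.mem_nthRootsFinset ha] at hζ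
    exact ⟨ζ, hζ, sub_eq_zero.1 hz⟩
  · rintro ⟨ζ, hζ, rfl⟩
    exact (q11_rot a β ζ hζ p).symm

end Pool.Agent.KO.Q
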