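import Pool.Agent.KO.Q.Spec

/-!
Project KO, block Q, row Q14: invariant functions descend to the quotient.
-/

set_option autoImplicit false
set_option maxHeartbeats 400000

open Filter Topology

namespace Pool.Agent.KO.Q

theorem q14_rot_mul {ι : Type} (β : ι → ℕ) (η ζ : ℂ) (q : ι → ℂ) :
    rot β η (rot β ζ q) = rot β (η * ζ) q := by
  funext j
  simp only [rot, mul_pow]
  ring

theorem q14_sum {ι : Type} (β : ι → ℕ) (s : ℕ) (hs : 0 < s) (F : (ι → ℂ) → ℂ) (ζ : ℂ)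
    (hζ : ζ ^ s = 1) (q : ι → ℂ) :
    ∑ η ∈ Polynomial.nthRootsFinset s (1 : ℂ), F (rot β η (rot β ζ q)) =
      ∑ η ∈ Polynomial.nthRootsFinset s (1 : ℂ), F (rot β η q) := by
  classical
  have hz0 : ζ ≠ 0 := by
    rintro rfl
    rw [zero_pow hs.ne'] at hζ
    exact zero_ne_one hζ
  refine Finset.sum_bij (fun η _ => η * ζ) ?_ ?_ ?_ ?_
  · intro η hη
    rw [Polynomial.mem_nthRootsFinset hs] at hη ⊢
    rw [mul_pow, hη, hζ, one_mul]
  · intro η _ η' _ h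
    exact mul_right_cancel₀ hz0 h
  · intro η hη
    rw [Polynomial.mem_nthRootsFinset hs] at hη
    refine ⟨η * ζ⁻¹, ?_, ?_⟩
    · rw [Polynomial.mem_nthRootsFinset hs, mul_pow, inv_pow, hη, hζ, inv_one, one_mul]
    · rw [mul_assoc, inv_mul_cancel₀ hz0, mul_one]
  · intro η _
    rw [q14_rot_mul]

theorem sp_fun (h6 : SpSt) (h8 : SpInv) (h13 : SpNhd) (h12 : SpProp) (h11 : SpFib) : SpFun := by
  intro ι _ _ a β ha M hM f hf p hp
  obtain ⟨F, hF, hFM⟩ := hp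
  obtain ⟨hs0, hsa, -, hrot, -⟩ := h6 ι a β p ha
  obtain ⟨hcc, hra, -⟩ := h12 ι a β ha
  set s : ℕ := st a β p with hs
  -- roots of unity of order `s` fix `p`
  have hsa1 : ∀ ζ : ℂ, ζ ^ s = 1 → ζ ^ a = 1 := by
    intro ζ hζ
    obtain ⟨c, hc⟩ := hsa
    rw [hc, pow_mul, hζ, one_pow]
  have hfix : ∀ ζ : ℂ, ζ ^ s = 1 → rot β ζ p = p := fun ζ hζ => (hrot ζ (hsa1 ζ hζ)).1 hζ
  have hcard : (Polynomial.nthRootsFinset s (1 : ℂ)).card = s :=
    (Complex.isPrimitiveRoot_exp s hs0.ne').card_nthRootsFinset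
  let F' : (ι → ℂ) → ℂ := fun q =>
    (s : ℂ)⁻¹ * ∑ η ∈ Polynomial.nthRootsFinset s (1 : ℂ), F (rot β η q)
  have hF'a : AnalyticAt ℂ F' p := by
    refine analyticAt_const.mul ?_
    refine Finset.analyticAt_fun_sum _ ?_
    intro η hη
    rw [Polynomial.mem_nthRootsFinset hs0] at hη
    have h1 : AnalyticAt ℂ F (rot β η p) := by
      rw [hfix η hη]
      exact hF
    exact h1.comp (hra η p)
  have hF'inv : ∀ ζ : ℂ, ζ ^ st a β p = 1 → ∀ᶠ q in 𝓝 p, F' (rot β ζ q) = F' q := by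
    intro ζ hζ
    refine Eventually.of_forall fun q => ?_
    show (s : ℂ)⁻¹ * _ = (s : ℂ)⁻¹ * _
    rw [q14_sum β s hs0 F ζ hζ q]
  have hF'M : ∀ᶠ q in 𝓝 p, q ∈ M → f q = F' q := by
    have h1 : ∀ η ∈ Polynomial.nthRootsFinset s (1 : ℂ), ∀ᶠ q in 𝓝 p,
        rot β η q ∈ M → f (rot β η q) = F (rot β η q) := by
      intro η hη
      rw [Polynomial.mem_nthRootsFinset hs0] at hη
      have h2 : Tendsto (rot β η) (𝓝 p) (𝓝 p) := by
        have h3 := (hra η p).continuousAt.tendsto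
        rwa [hfix η hη] at h3
      exact h2.eventually hFM
    have h4 : ∀ᶠ q in 𝓝 p, ∀ η ∈ Polynomial.nthRootsFinset s (1 : ℂ),
        rot β η q ∈ M → f (rot β η q) = F (rot β η q) :=
      (Finset.eventually_all _).2 h1
    filter_upwards [h4] with q hq hqM
    have h5 : ∑ η ∈ Polynomial.nthRootsFinset s (1 : ℂ), F (rot β η q) = (s : ℂ) * f q := by
      rw [Finset.sum_congr rfl (g := fun _ => f q), Finset.sum_const, hcard, nsmul_eq_mul]
      intro η hη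
      have h6' := hq η hη
      rw [Polynomial.mem_nthRootsFinset hs0] at hη
      have h7 : rot β η q ∈ M := hM η (hsa1 η hη) q hqM
      rw [← h6' h7, hf η (hsa1 η hη) q hqM]
    show f q = (s : ℂ)⁻¹ * _
    rw [h5, ← mul_assoc, inv_mul_cancel₀ (Nat.cast_ne_zero.2 hs0.ne'), one_mul]
  obtain ⟨G, hG, hGF⟩ := h8 ι a β p ha F' hF'a hF'inv
  refine ⟨G, hG, ?_⟩
  have hU : {q | (q ∈ M → f q = F' q) ∧ F' q = G (cc a β q)} ∈ 𝓝 p := hF'M.and hGF
  filter_upwards [h13 ι a β ha p _ hU] with y hy q hqM hqy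
  obtain ⟨ζ, hζ, h1, h2⟩ := hy q hqy
  have h3 : rot β ζ q ∈ M := hM ζ hζ q hqM
  have h4 : cc a β q = cc a β (rot β ζ q) := (h11 ι a β ha q (rot β ζ q)).2 ⟨ζ, hζ, rfl⟩
  rw [← hf ζ hζ q hqM, h1 h3, h2, ← h4, hqy]

end Pool.Agent.KO.Q
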