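import Pool.Agent.KO.Q.Spec

/-!
Project KO, row Q08 (helper25): functions that are invariant under the stabilizer of `p`.
-/

set_option autoImplicit false
set_option maxHeartbeats 400000

open Filter Topology

namespace Pool.Agent.KO.Q

theorem q08_rot_add {ι : Type} (β : ι → ℕ) (ζ : ℂ) (p q : ι → ℂ) :
    rot β ζ (p + q) = rot β ζ p + rot β ζ q := by
  funext j
  simp only [rot, Pi.add_apply]
  ring

theorem sp_inv (h4 : SpZero) (h6 : SpSt) (h7 : SpMon) : SpInv := by
  intro ι _ _ a β p ha F hF hinv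
  obtain ⟨hs0, hsa, -, hst, -⟩ := h6 ι a β p ha
  have hadd : Tendsto (fun q : ι → ℂ => p + q) (𝓝 0) (𝓝 p) := by
    have h1 : Tendsto (fun q : ι → ℂ => p + q) (𝓝 0) (𝓝 (p + 0)) :=
      tendsto_const_nhds.add tendsto_id
    rwa [add_zero] at h1
  have hsub : Tendsto (fun q : ι → ℂ => q - p) (𝓝 p) (𝓝 0) := by
    have h1 : Tendsto (fun q : ι → ℂ => q - p) (𝓝 p) (𝓝 (p - p)) :=
      tendsto_id.sub tendsto_const_nhds
    rwa [sub_self] at h1
  have hF' : AnalyticAt ℂ (fun q : ι → ℂ => F (p + q)) 0 := by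
    have h1 : AnalyticAt ℂ (fun q : ι → ℂ => p + q) 0 := analyticAt_const.add analyticAt_id
    have h2 : AnalyticAt ℂ F (p + 0) := by rwa [add_zero]
    exact h2.comp h1
  obtain ⟨G0, hG0, hG0e⟩ := h4 ι (st a β p) β hs0 (fun q => F (p + q)) hF' (by
    intro ζ hζ
    have hζa : ζ ^ a = 1 := by
      obtain ⟨c, hc⟩ := hsa
      rw [hc, pow_mul, hζ, one_pow]
    have hp : rot β ζ p = p := (hst ζ hζa).1 hζ
    have h1 := hadd.eventually (hinv ζ hζ)
    filter_upwards [h1] with q hq
    rw [q08_rot_add, hp] at hq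
    exact hq)
  choose g hg hge using fun x : Ix (st a β p) β =>
    h7 ι a β p ha (fun j => (x.γ j : ℕ)) x.dvd
  have hg0 : ∀ x, g x (cc a β p) = 0 := by
    intro x
    have h1 := (hge x).self_of_nhds
    rw [← h1]
    have h2 : ∃ j, x.γ j ≠ 0 := by
      by_contra h3
      push Not at h3
      exact x.ne (funext h3)
    obtain ⟨j, hj⟩ := h2
    apply Finset.prod_eq_zero (Finset.mem_univ j)
    rw [sub_self]
    apply zero_pow
    intro h3
    exact hj (Fin.ext h3)
  refine ⟨fun y => G0 (fun x => g x y), ?_, ?_⟩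
  · have h1 : AnalyticAt ℂ (fun y : Ix a β → ℂ => (fun x => g x y)) (cc a β p) :=
      AnalyticAt.pi fun x => hg x
    have h2 : AnalyticAt ℂ G0 ((fun y : Ix a β → ℂ => (fun x => g x y)) (cc a β p)) := by
      have h3 : (fun x => g x (cc a β p)) = 0 := funext hg0
      change AnalyticAt ℂ G0 (fun x => g x (cc a β p))
      rw [h3]
      exact hG0
    exact h2.comp h1
  · have h1 := hsub.eventually hG0e
    have h2 : ∀ᶠ q in 𝓝 p, ∀ x : Ix (st a β p) β,
        ∏ j, (q j - p j) ^ ((x.γ j : ℕ)) = g x (cc a β q) := eventually_all.2 hge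
    filter_upwards [h1, h2] with q hq1 hq2
    rw [add_sub_cancel] at hq1
    rw [hq1]
    congr 1
    funext x
    exact hq2 x

end Pool.Agent.KO.Q
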