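import Pool.Agent.KO.Q.Spec

/-!
Project KO, block Q, row Q15: extension of homomorphisms to integral extensions.
-/

set_option autoImplicit false
set_option maxHeartbeats 400000

namespace Pool.Agent.KO.Q

/-- Q15 -/
theorem sp_lift : SpLift := by
  intro S _ _ R hR ψ
  haveI : Algebra.IsIntegral R S := ⟨hR⟩
  have hsurj : Function.Surjective ψ.toRingHom := fun z =>
    ⟨algebraMap ℂ R z, ψ.commutes z⟩
  haveI hmax : (RingHom.ker ψ.toRingHom).IsMaximal :=
    RingHom.ker_isMaximal_of_surjective ψ.toRingHom hsurj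
  obtain ⟨Q, hQ, hQR⟩ := Ideal.exists_ideal_over_maximal_of_isIntegral (S := S)
    (RingHom.ker ψ.toRingHom) (by
      intro x hx
      have h1 : x = 0 := by
        apply Subtype.ext
        exact hx
      rw [h1]
      exact Ideal.zero_mem _)
  haveI := hQ
  letI : Field (S ⧸ Q) := Ideal.Quotient.field Q
  have hr : ∀ r : R, Ideal.Quotient.mk Q (r : S) = algebraMap ℂ (S ⧸ Q) (ψ r) := by
    intro r
    have h1 : r - algebraMap ℂ R (ψ r) ∈ RingHom.ker ψ.toRingHom := by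
      rw [RingHom.mem_ker]
      change ψ (r - algebraMap ℂ R (ψ r)) = 0
      rw [map_sub, ψ.commutes]
      exact sub_self _
    rw [← hQR, Ideal.mem_comap, map_sub] at h1
    exact (Ideal.Quotient.eq).2 h1
  have hint : Algebra.IsIntegral ℂ (S ⧸ Q) := by
    constructor
    intro x
    obtain ⟨s, rfl⟩ := Ideal.Quotient.mk_surjective x
    obtain ⟨p, hp, hps⟩ := hR s
    refine ⟨p.map ψ.toRingHom, hp.map _, ?_⟩
    rw [Polynomial.eval₂_map]
    have h2 : (algebraMap ℂ (S ⧸ Q)).comp ψ.toRingHom =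
        (Ideal.Quotient.mk Q).comp (algebraMap R S) := by
      ext r
      exact (hr r).symm
    rw [h2, ← Polynomial.hom_eval₂, hps, map_zero]
  have hbij := IsAlgClosed.algebraMap_bijective_of_isIntegral (k := ℂ) (K := S ⧸ Q)
  let e : ℂ ≃ₐ[ℂ] (S ⧸ Q) := AlgEquiv.ofBijective (Algebra.ofId ℂ (S ⧸ Q)) hbij
  refine ⟨(e.symm : (S ⧸ Q) →ₐ[ℂ] ℂ).comp (Ideal.Quotient.mkₐ ℂ Q), fun r => ?_⟩
  change e.symm (Ideal.Quotient.mk Q (r : S)) = ψ r
  rw [hr r, AlgEquiv.symm_apply_eq]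
  rfl

end Pool.Agent.KO.Q
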