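import Pool.Agent.KO.Q.Spec

/-!
Project KO, block Q, row Q07: monomials that are invariant under the stabilizer (helper48).
-/

set_option autoImplicit false
set_option maxHeartbeats 400000

open Filter Topology

namespace Pool.Agent.KO.Q

section q07

variable {ι : Type} [Fintype ι]

open Classical in
/-- The exponent `a e_j`. -/
noncomputable def q07E (a : ℕ) (β : ι → ℕ) (ha : 0 < a) (j : ι) : Ix a β where
  γ := fun i => if i = j then Fin.last a else 0
  ne := by
    intro h
    have h1 := congrFun h j
    simp only [if_true, Pi.zero_apply] at h1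
    have h2 := congrArg Fin.val h1
    rw [Fin.val_last] at h2
    simp at h2
    omega
  dvd := by
    refine Finset.dvd_sum fun i _ => ?_
    by_cases h : i = j
    · rw [if_pos h, Fin.val_last]
      exact dvd_mul_right _ _
    · rw [if_neg h]
      simp

theorem q07_cc (a : ℕ) (β : ι → ℕ) (ha : 0 < a) (j : ι) (q : ι → ℂ) :
    cc a β q (q07E a β ha j) = q j ^ a := by
  classical
  unfold cc q07E
  rw [Finset.prod_eq_single j]
  · simp
  · intro i _ hij
    simp [hij]
  · intro h
    exact absurd (Finset.mem_univ j) h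

theorem q07_cont (a : ℕ) (β : ι → ℕ) (x : Ix a β) (y : Ix a β → ℂ) :
    AnalyticAt ℂ (fun y : Ix a β → ℂ => y x) y :=
  (ContinuousLinearMap.proj (R := ℂ) (φ := fun _ : Ix a β => ℂ) x).analyticAt y

end q07

theorem sp_mon (h1 : SpWord) (h5 : SpRoot) (h6 : SpSt) : SpMon := by
  intro ι _ _ a β p ha γ hγ
  classical
  obtain ⟨_, _, hst, _, hex⟩ := h6 ι a β p ha
  -- the sum over the coordinates outside J
  have hN : st a β p ∣ ∑ j, (if p j = 0 then γ j * β j else 0) := by
    have e : ∑ j, γ j * β j = ∑ j, (if p j = 0 then γ j * β j else 0) +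
        ∑ j, (if p j = 0 then 0 else γ j * β j) := by
      rw [← Finset.sum_add_distrib]
      refine Finset.sum_congr rfl fun j _ => ?_
      split_ifs <;> simp
    have h2 : st a β p ∣ ∑ j, (if p j = 0 then 0 else γ j * β j) := by
      refine Finset.dvd_sum fun j _ => ?_
      split_ifs with h
      · exact dvd_zero _
      · exact dvd_mul_of_dvd_right (hst j h) _
    rw [e] at hγ
    exact (Nat.dvd_add_iff_left h2).2 hγ
  obtain ⟨δ, hδ0, hδ⟩ := hex _ hN
  have hsum : ∑ j, (if p j = 0 then γ j else δ j) * β j =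
      ∑ j, (if p j = 0 then γ j * β j else 0) + ∑ j, δ j * β j := by
    rw [← Finset.sum_add_distrib]
    refine Finset.sum_congr rfl fun j _ => ?_
    by_cases h : p j = 0
    · simp [h, hδ0 j h]
    · simp [h]
  obtain ⟨k, w, -, hw⟩ := h1 ι a β ha (fun j => if p j = 0 then γ j else δ j)
    (by rw [hsum]; exact hδ)
  have hR : ∀ j, ∃ R : ℂ → ℂ, p j ≠ 0 →
      AnalyticAt ℂ R (p j ^ a) ∧ R (p j ^ a) = p j ∧ ∀ᶠ t in 𝓝 (p j), R (t ^ a) = t := by
    intro j
    by_cases h : p j = 0
    · exact ⟨id, fun h' => absurd h h'⟩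
    · obtain ⟨R, hR⟩ := h5 a (p j) ha h
      exact ⟨R, fun _ => hR⟩
  choose R hR using hR
  have hRan : ∀ j, p j ≠ 0 →
      AnalyticAt ℂ (fun y : Ix a β → ℂ => R j (y (q07E a β ha j))) (cc a β p) := by
    intro j hj
    refine AnalyticAt.fun_comp (g := R j) ?_ (q07_cont a β (q07E a β ha j) (cc a β p))
    rw [q07_cc]
    exact (hR j hj).1
  refine ⟨fun y => (∏ j, (if p j = 0 then (1 : ℂ) else
      (R j (y (q07E a β ha j)) - p j) ^ γ j)) *
      ((∏ i ∈ Finset.range k, y (w i)) /
        ∏ j, (if p j = 0 then (1 : ℂ) else R j (y (q07E a β ha j)) ^ δ j)), ?_, ?_⟩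
  · refine AnalyticAt.fun_mul ?_ (AnalyticAt.fun_div ?_ ?_ ?_)
    · refine Finset.analyticAt_fun_prod _ fun j _ => ?_
      by_cases h : p j = 0
      · simp only [h, if_true]
        exact analyticAt_const
      · simp only [h, if_false]
        exact ((hRan j h).fun_sub analyticAt_const).fun_pow _
    · exact Finset.analyticAt_fun_prod _ fun i _ => q07_cont a β (w i) _
    · refine Finset.analyticAt_fun_prod _ fun j _ => ?_
      by_cases h : p j = 0
      · simp only [h, if_true]
        exact analyticAt_const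
      · simp only [h, if_false]
        exact (hRan j h).fun_pow _
    · refine Finset.prod_ne_zero_iff.2 fun j _ => ?_
      by_cases h : p j = 0
      · simp [h]
      · rw [if_neg h, q07_cc, (hR j h).2.1]
        exact pow_ne_zero _ h
  · have hev : ∀ᶠ q in 𝓝 p, ∀ j, p j ≠ 0 → R j (q j ^ a) = q j ∧ q j ≠ 0 := by
      rw [Filter.eventually_all]
      intro j
      by_cases h : p j = 0
      · exact Filter.Eventually.of_forall fun q h' => absurd h h'
      · have hc : ContinuousAt (fun q : ι → ℂ => q j) p := (continuous_apply j).continuousAt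
        have e1 := hc.eventually (hR j h).2.2
        have e2 := hc.eventually_ne h
        filter_upwards [e1, e2] with q h3 h4 _ using ⟨h3, h4⟩
    filter_upwards [hev] with q hq
    have hden : ∏ j, (if p j = 0 then (1 : ℂ) else
        R j (cc a β q (q07E a β ha j)) ^ δ j) = ∏ j, (if p j = 0 then (1 : ℂ) else q j ^ δ j) := by
      refine Finset.prod_congr rfl fun j _ => ?_
      by_cases h : p j = 0
      · simp [h]
      · rw [if_neg h, if_neg h, q07_cc, (hq j h).1]
    have hnum : ∏ j, (if p j = 0 then (1 : ℂ) else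
        (R j (cc a β q (q07E a β ha j)) - p j) ^ γ j) =
        ∏ j, (if p j = 0 then (1 : ℂ) else (q j - p j) ^ γ j) := by
      refine Finset.prod_congr rfl fun j _ => ?_
      by_cases h : p j = 0
      · simp [h]
      · rw [if_neg h, if_neg h, q07_cc, (hq j h).1]
    have hd0 : ∏ j, (if p j = 0 then (1 : ℂ) else q j ^ δ j) ≠ 0 := by
      refine Finset.prod_ne_zero_iff.2 fun j _ => ?_
      by_cases h : p j = 0
      · simp [h]
      · rw [if_neg h]
        exact pow_ne_zero _ (hq j h).2
    rw [hnum, hden, ← hw q, ← mul_div_assoc, eq_div_iff hd0, ← Finset.prod_mul_distrib,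
      ← Finset.prod_mul_distrib]
    refine Finset.prod_congr rfl fun j _ => ?_
    by_cases h : p j = 0
    · simp [h]
    · simp [h]

end Pool.Agent.KO.Q
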