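import Pool.Agent.KO.Q.Spec

/-!
Project KO, row Q13: neighbourhoods of orbits (helper49).
-/

set_option autoImplicit false
set_option maxHeartbeats 400000

open Filter Topology

namespace Pool.Agent.KO.Q

theorem sp_nhd (h11 : SpFib) (h12 : SpProp) : SpNhd := by
  intro ι _ _ a β ha p U hU
  have hop : IsOpen {q : ι → ℂ | ∃ ζ : ℂ, ζ ^ a = 1 ∧ rot β ζ q ∈ interior U} := by
    have h1 : {q : ι → ℂ | ∃ ζ : ℂ, ζ ^ a = 1 ∧ rot β ζ q ∈ interior U} =
        ⋃ ζ ∈ {ζ : ℂ | ζ ^ a = 1}, rot β ζ ⁻¹' interior U := by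
      ext q
      simp only [Set.mem_iUnion, Set.mem_preimage, exists_prop]
      rfl
    rw [h1]
    refine isOpen_biUnion fun ζ _ => isOpen_interior.preimage ?_
    unfold rot
    exact continuous_pi fun j => continuous_const.mul (continuous_apply j)
  have hcl := (h12 ι a β ha).2.2.isClosedMap _ hop.isClosed_compl
  have hp : cc a β p ∉ cc a β '' {q : ι → ℂ | ∃ ζ : ℂ, ζ ^ a = 1 ∧ rot β ζ q ∈ interior U}ᶜ := by
    rintro ⟨q, hq, hqp⟩
    obtain ⟨ζ, hζ, h1⟩ := (h11 ι a β ha q p).1 hqp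
    refine hq ⟨ζ, hζ, ?_⟩
    rw [← h1]
    exact mem_interior_iff_mem_nhds.2 hU
  filter_upwards [hcl.isOpen_compl.mem_nhds hp] with y hy q hq
  by_contra hcon
  refine hy ⟨q, fun hmem => hcon ?_, hq⟩
  obtain ⟨ζ, hζ, h1⟩ := hmem
  exact ⟨ζ, hζ, interior_subset h1⟩

end Pool.Agent.KO.Q
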