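import Pool.Agent.KO.Q.Spec

/-!
Project KO, block Q, row Q10: two points with the same linear projections up to roots of unity
(helper33).
-/

set_option autoImplicit false
set_option maxHeartbeats 400000

open Filter Topology

namespace Pool.Agent.KO.Q

theorem sp_orb : SpOrb := by
  classical
  intro ι _ a β ha p q h
  let e : ι ≃ Fin (Fintype.card ι) := Fintype.equivFin ι
  have h1 : ∀ n : ℕ, ∃ ζ : ℂ, ζ ^ a = 1 ∧
      ∑ j, (n : ℂ) ^ (e j : ℕ) * q j = ∑ j, (n : ℂ) ^ (e j : ℕ) * rot β ζ p j := fun n => h _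
  choose ζ hζ hs using h1
  let f : ℕ → (Polynomial.nthRootsFinset a (1 : ℂ)) := fun n =>
    ⟨ζ n, (Polynomial.mem_nthRootsFinset ha (1 : ℂ)).2 (hζ n)⟩
  obtain ⟨y, hy⟩ := Finite.exists_infinite_fiber f
  have hy1 : (y : ℂ) ^ a = 1 := (Polynomial.mem_nthRootsFinset ha (1 : ℂ)).1 y.2
  refine ⟨y, hy1, ?_⟩
  set P : Polynomial ℂ := ∑ j, Polynomial.C (q j - (y : ℂ) ^ β j * p j) *
    Polynomial.X ^ (e j : ℕ) with hP
  have hP0 : P = 0 := by
    apply Polynomial.eq_zero_of_infinite_isRoot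
    have h2 : ((fun n : ℕ => (n : ℂ)) '' (f ⁻¹' {y})).Infinite :=
      (Set.infinite_coe_iff.1 hy).image (Nat.cast_injective.injOn)
    refine h2.mono ?_
    rintro _ ⟨n, hn, rfl⟩
    have h3 : ζ n = (y : ℂ) := congrArg Subtype.val hn
    have h4 := hs n
    rw [h3] at h4
    change Polynomial.IsRoot P (n : ℂ)
    rw [Polynomial.IsRoot.def, hP, Polynomial.eval_finsetSum]
    simp only [Polynomial.eval_mul, Polynomial.eval_C, Polynomial.eval_pow, Polynomial.eval_X]
    have h5 : ∀ j, (q j - (y : ℂ) ^ β j * p j) * (n : ℂ) ^ (e j : ℕ) =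
        (n : ℂ) ^ (e j : ℕ) * q j - (n : ℂ) ^ (e j : ℕ) * rot β (y : ℂ) p j := by
      intro j
      unfold rot
      ring
    simp only [h5]
    rw [Finset.sum_sub_distrib, h4, sub_self]
  funext j
  have h6 : P.coeff (e j : ℕ) = q j - (y : ℂ) ^ β j * p j := by
    rw [hP, Polynomial.finsetSum_coeff]
    simp only [Polynomial.coeff_C_mul, Polynomial.coeff_X_pow]
    rw [Finset.sum_eq_single j]
    · rw [if_pos rfl, mul_one]
    · intro i _ hij
      rw [if_neg, mul_zero]
      intro h7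
      exact hij (e.injective (Fin.ext h7)).symm
    · intro h7
      exact absurd (Finset.mem_univ j) h7
  rw [hP0, Polynomial.coeff_zero] at h6
  exact sub_eq_zero.1 h6.symm

end Pool.Agent.KO.Q
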