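import Pool.Agent.KO.Q.Spec

/-!
Project KO, block Q, row Q09: invariant polynomials are functions of the quotient map.
-/

set_option autoImplicit false
set_option maxHeartbeats 400000

open Filter Topology

namespace Pool.Agent.KO.Q

open MvPolynomial

theorem q09_monomial {ι : Type} [Fintype ι] (β : ι → ℕ) (ζ : ℂ) (m : ι →₀ ℕ) (c : ℂ) :
    aeval (fun j => (C (ζ ^ β j) * X j : MvPolynomial ι ℂ)) (monomial m c) =
      monomial m (ζ ^ (∑ j, m j * β j) * c) := by
  rw [aeval_monomial, Finsupp.prod_fintype _ _ (fun i => pow_zero _)]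
  have h1 : ∀ j, (C (ζ ^ β j) * X j : MvPolynomial ι ℂ) ^ m j =
      C (ζ ^ (m j * β j)) * X j ^ m j := by
    intro j
    rw [mul_pow, ← C_pow, ← pow_mul, Nat.mul_comm]
  rw [Finset.prod_congr rfl fun j _ => h1 j, Finset.prod_mul_distrib, ← map_prod,
    Finset.prod_pow_eq_pow_sum]
  have h2 : (monomial m (ζ ^ (∑ j, m j * β j) * c) : MvPolynomial ι ℂ) =
      C (ζ ^ (∑ j, m j * β j) * c) * ∏ j, X j ^ m j := by
    rw [monomial_eq, Finsupp.prod_fintype _ _ (fun i => pow_zero _)]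
  rw [h2, C_mul, algebraMap_eq]
  ring

theorem q09_coeff {ι : Type} [Fintype ι] (β : ι → ℕ) (ζ : ℂ) (P : MvPolynomial ι ℂ)
    (m : ι →₀ ℕ) :
    coeff m (aeval (fun j => (C (ζ ^ β j) * X j : MvPolynomial ι ℂ)) P) =
      ζ ^ (∑ j, m j * β j) * coeff m P := by
  classical
  induction P using MvPolynomial.induction_on' with
  | monomial e c =>
    rw [q09_monomial, coeff_monomial, coeff_monomial]
    by_cases h : e = m
    · rw [if_pos h, if_pos h, h]
    · rw [if_neg h, if_neg h, mul_zero]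
  | add p q hp hq => rw [map_add, coeff_add, coeff_add, hp, hq, mul_add]

theorem q09_dvd {ι : Type} [Fintype ι] (a : ℕ) (β : ι → ℕ) (ha : 0 < a) (P : MvPolynomial ι ℂ)
    (h : ∀ ζ : ℂ, ζ ^ a = 1 →
      aeval (fun j => (C (ζ ^ β j) * X j : MvPolynomial ι ℂ)) P = P)
    (m : ι →₀ ℕ) (hm : m ∈ P.support) : a ∣ ∑ j, m j * β j := by
  have hz : IsPrimitiveRoot (Complex.exp (2 * Real.pi * Complex.I / a)) a :=
    Complex.isPrimitiveRoot_exp a ha.ne'
  have h1 := congrArg (coeff m) (h _ hz.pow_eq_one)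
  rw [q09_coeff] at h1
  have h2 : coeff m P ≠ 0 := mem_support_iff.mp hm
  have h3 : Complex.exp (2 * Real.pi * Complex.I / a) ^ (∑ j, m j * β j) = 1 :=
    mul_right_cancel₀ h2 (h1.trans (one_mul _).symm)
  exact (hz.pow_eq_one_iff_dvd _).mp h3

theorem sp_poly (h1 : SpWord) : SpPoly := by
  intro ι _ _ a β ha P hP
  classical
  have hw : ∀ m : ι →₀ ℕ, ∃ W : MvPolynomial (Ix a β) ℂ, m ∈ P.support →
      ∀ q : ι → ℂ, ∏ j, q j ^ m j = eval (cc a β q) W := by
    intro m
    by_cases hm : m ∈ P.support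
    · obtain ⟨k, w, _, hk⟩ := h1 ι a β ha (fun j => m j) (q09_dvd a β ha P hP m hm)
      refine ⟨∏ i ∈ Finset.range k, X (w i), fun _ q => ?_⟩
      rw [hk q, map_prod]
      exact Finset.prod_congr rfl fun i _ => (eval_X _).symm
    · exact ⟨0, fun h => absurd h hm⟩
  choose W hW using hw
  refine ⟨∑ m ∈ P.support, C (coeff m P) * W m, fun q => ?_⟩
  rw [eval_eq', map_sum]
  refine Finset.sum_congr rfl fun m hm => ?_
  rw [map_mul, eval_C, hW m hm q]

end Pool.Agent.KO.Q
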