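import Pool.Agent.KO.Q.Spec

/-!
Project KO, block Q, row Q12: the quotient map is analytic and proper.
-/

set_option autoImplicit false
set_option maxHeartbeats 400000

open Filter Topology

namespace Pool.Agent.KO.Q

variable {ι : Type} [Fintype ι]

theorem q12_cc (a : ℕ) (β : ι → ℕ) (p : ι → ℂ) : AnalyticAt ℂ (cc a β) p := by
  have h : ∀ x : Ix a β, AnalyticAt ℂ (fun q : ι → ℂ => ∏ j, q j ^ (x.γ j : ℕ)) p := by
    intro x
    refine Finset.analyticAt_fun_prod _ fun j _ => ?_
    exact ((ContinuousLinearMap.proj (R := ℂ) (φ := fun _ : ι => ℂ) j).analyticAt p).pow _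
  exact AnalyticAt.pi h

theorem q12_rot (β : ι → ℕ) (ζ : ℂ) (p : ι → ℂ) : AnalyticAt ℂ (rot β ζ) p := by
  have h : ∀ j : ι, AnalyticAt ℂ (fun q : ι → ℂ => ζ ^ β j * q j) p := by
    intro j
    exact analyticAt_const.mul
      ((ContinuousLinearMap.proj (R := ℂ) (φ := fun _ : ι => ℂ) j).analyticAt p)
  exact AnalyticAt.pi h

open Classical in
theorem q12_ix {a : ℕ} (ha : 0 < a) (β : ι → ℕ) (j : ι) :
    ∃ x : Ix a β, ∀ q : ι → ℂ, cc a β q x = q j ^ a := by
  have hv : ∀ i : ι, ((Pi.single j (⟨a, Nat.lt_succ_self a⟩ : Fin (a + 1)) :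
      ι → Fin (a + 1)) i : ℕ) = if i = j then a else 0 := by
    intro i
    by_cases hi : i = j
    · subst hi
      rw [Pi.single_eq_same, if_pos rfl]
    · rw [Pi.single_eq_of_ne hi, if_neg hi]
      rfl
  refine ⟨⟨Pi.single j ⟨a, Nat.lt_succ_self a⟩, ?_, ?_⟩, fun q => ?_⟩
  · intro h
    have h1 := congrArg Fin.val (congrFun h j)
    rw [hv j, if_pos rfl] at h1
    have h2 : a = 0 := h1
    omega
  · simp only [hv]
    refine Finset.dvd_sum fun i _ => ?_
    by_cases hi : i = j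
    · rw [if_pos hi]
      exact Dvd.intro _ rfl
    · rw [if_neg hi, zero_mul]
      exact dvd_zero _
  · change ∏ i, q i ^ ((Pi.single j (⟨a, Nat.lt_succ_self a⟩ : Fin (a + 1)) :
      ι → Fin (a + 1)) i : ℕ) = q j ^ a
    simp only [hv]
    rw [Finset.prod_eq_single j]
    · rw [if_pos rfl]
    · intro i _ hi
      rw [if_neg hi, pow_zero]
    · intro h
      exact absurd (Finset.mem_univ j) h

theorem sp_prop : SpProp := by
  intro ι _ _ a β ha
  have hc : Continuous (cc a β) := by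
    rw [continuous_iff_continuousAt]
    exact fun p => (q12_cc a β p).continuousAt
  refine ⟨q12_cc a β, q12_rot β, ?_⟩
  rw [isProperMap_iff_isCompact_preimage]
  refine ⟨hc, fun K hK => ?_⟩
  refine Metric.isCompact_of_isClosed_isBounded (hK.isClosed.preimage hc) ?_
  obtain ⟨C, hC⟩ := hK.isBounded.subset_closedBall 0
  refine (Metric.isBounded_closedBall (x := (0 : ι → ℂ)) (r := max 1 C)).subset ?_
  intro q hq
  have h1 : ‖cc a β q‖ ≤ C := by
    have h2 := hC hq
    rwa [mem_closedBall_zero_iff] at h2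
  rw [mem_closedBall_zero_iff, pi_norm_le_iff_of_nonneg (by positivity)]
  intro j
  obtain ⟨x, hx⟩ := q12_ix ha β j
  have h3 : ‖q j‖ ^ a ≤ C := by
    rw [← norm_pow, ← hx q]
    exact (norm_le_pi_norm (cc a β q) x).trans h1
  by_cases h4 : ‖q j‖ ≤ 1
  · exact h4.trans (le_max_left _ _)
  · refine le_trans ?_ (h3.trans (le_max_right _ _))
    exact le_self_pow₀ (le_of_not_ge h4) ha.ne'

end Pool.Agent.KO.Q
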