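import Pool.Agent.KO.Q.Spec

/-!
Project KO, block Q, row Q05: local roots (helper40).
-/

set_option autoImplicit false
set_option maxHeartbeats 400000

open Filter Topology

namespace Pool.Agent.KO.Q

theorem sp_root : SpRoot := by
  intro a c ha hc
  have hca : c ^ a ≠ 0 := pow_ne_zero a hc
  have ha' : a ≠ 0 := ha.ne'
  refine ⟨fun y => c * (y / c ^ a) ^ ((a : ℂ)⁻¹), ?_, ?_, ?_⟩
  · refine analyticAt_const.mul (AnalyticAt.cpow ?_ analyticAt_const ?_)
    · exact analyticAt_id.div analyticAt_const hca
    · rw [div_self hca]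
      exact Complex.one_mem_slitPlane
  · simp [div_self hca]
  · have hlim : Tendsto (fun t : ℂ => (t / c).arg) (𝓝 c) (𝓝 0) := by
      have h1 : ContinuousAt Complex.arg (c / c) := by
        rw [div_self hc]
        exact Complex.continuousAt_arg Complex.one_mem_slitPlane
      have h2 : ContinuousAt (fun t : ℂ => t / c) c := by fun_prop
      have h3 : ContinuousAt (fun t : ℂ => (t / c).arg) c :=
        ContinuousAt.comp (f := fun t : ℂ => t / c) (g := Complex.arg) h1 h2
      have h4 : (c / c).arg = 0 := by rw [div_self hc, Complex.arg_one]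
      have h5 := h3.tendsto
      rwa [h4] at h5
    have hpi : 0 < Real.pi / a := by positivity
    have hm : Set.Ioo (-(Real.pi / a)) (Real.pi / a) ∈ 𝓝 (0 : ℝ) :=
      Ioo_mem_nhds (by linarith) hpi
    filter_upwards [hlim hm] with t ht
    have h6 : (t ^ a / c ^ a) = (t / c) ^ a := (div_pow t c a).symm
    rw [h6, Complex.pow_cpow_nat_inv ha' ht.1 ht.2.le, mul_div_cancel₀ t hc]

end Pool.Agent.KO.Q
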