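import Pool.Agent.KO.Q.Spec

/-!
Project KO, block Q, row Q03: power series indexed by words.
-/

set_option autoImplicit false
set_option maxHeartbeats 400000

open Filter Topology

namespace Pool.Agent.KO.Q

section Q03

variable {κ : Type} [Fintype κ]

/-- The multilinear monomial of the word `v`. -/
noncomputable def q03_mon (K : ℕ) (v : ℕ → κ) :
    ContinuousMultilinearMap ℂ (fun _ : Fin K => (κ → ℂ)) ℂ :=
  (ContinuousMultilinearMap.mkPiAlgebra ℂ (Fin K) ℂ).compContinuousLinearMap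
    (fun i => ContinuousLinearMap.proj (v i))

theorem q03_mon_apply (K : ℕ) (v : ℕ → κ) (m : Fin K → (κ → ℂ)) :
    q03_mon K v m = ∏ i, m i (v i) := by
  simp [q03_mon]

theorem q03_mon_norm (K : ℕ) (v : ℕ → κ) : ‖q03_mon K v‖ ≤ 1 := by
  refine ContinuousMultilinearMap.opNorm_le_bound zero_le_one fun m => ?_
  rw [q03_mon_apply, one_mul, norm_prod]
  exact Finset.prod_le_prod (fun i _ => norm_nonneg _) fun i _ => norm_le_pi_norm (m i) (v i)

theorem q03_mon_diag (K : ℕ) (v : ℕ → κ) (y : κ → ℂ) :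
    q03_mon K v (fun _ => y) = ∏ i ∈ Finset.range K, y (v i) := by
  rw [q03_mon_apply, Finset.prod_range]

end Q03

theorem sp_ser : SpSer := by
  intro κ _ X b k w σ hσ hs hfin
  have hf : ∀ K, {x | k x = K}.Finite := fun K =>
    (hfin K).subset fun x hx => le_of_eq hx
  let F : ℕ → Finset X := fun K => (hf K).toFinset
  have hF : ∀ K x, x ∈ F K ↔ k x = K := fun K x => by simp [F]
  let P : FormalMultilinearSeries ℂ (κ → ℂ) ℂ := fun K => ∑ x ∈ F K, b x • q03_mon K (w x)
  have hPn : ∀ K, ‖P K‖ * σ ^ K ≤ ∑' x, ‖b x‖ * σ ^ k x := by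
    intro K
    have h1 : ‖P K‖ ≤ ∑ x ∈ F K, ‖b x‖ := by
      refine (norm_sum_le _ _).trans (Finset.sum_le_sum fun x _ => ?_)
      rw [norm_smul]
      exact mul_le_of_le_one_right (norm_nonneg _) (q03_mon_norm K (w x))
    calc ‖P K‖ * σ ^ K ≤ (∑ x ∈ F K, ‖b x‖) * σ ^ K :=
          mul_le_mul_of_nonneg_right h1 (pow_nonneg hσ.le _)
      _ = ∑ x ∈ F K, ‖b x‖ * σ ^ k x := by
          rw [Finset.sum_mul]
          exact Finset.sum_congr rfl fun x hx => by rw [(hF K x).1 hx]
      _ ≤ ∑' x, ‖b x‖ * σ ^ k x :=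
          hs.sum_le_tsum _ fun x _ => mul_nonneg (norm_nonneg _) (pow_nonneg hσ.le _)
  have hrad : (σ.toNNReal : ENNReal) ≤ P.radius := by
    refine P.le_radius_of_bound (∑' x, ‖b x‖ * σ ^ k x) fun K => ?_
    rw [Real.coe_toNNReal σ hσ.le]
    exact hPn K
  have hpos : 0 < P.radius := lt_of_lt_of_le (by simpa using hσ) hrad
  have hball := P.hasFPowerSeriesOnBall hpos
  refine ⟨P.sum, hball.analyticAt, ?_⟩
  have hU : Metric.ball (0 : κ → ℂ) σ ∈ 𝓝 (0 : κ → ℂ) := Metric.ball_mem_nhds _ hσ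
  filter_upwards [hU] with y hy
  have hyn : ‖y‖ < σ := by simpa using hy
  -- the sum over the words converges absolutely
  have hsum : Summable fun x => b x * ∏ i ∈ Finset.range (k x), y (w x i) := by
    refine Summable.of_norm_bounded hs fun x => ?_
    rw [norm_mul, norm_prod]
    refine mul_le_mul_of_nonneg_left ?_ (norm_nonneg _)
    calc ∏ i ∈ Finset.range (k x), ‖y (w x i)‖ ≤ ∏ _i ∈ Finset.range (k x), σ :=
          Finset.prod_le_prod (fun _ _ => norm_nonneg _) fun i _ =>
            (norm_le_pi_norm y (w x i)).trans hyn.le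
      _ = σ ^ k x := by simp
  have hy' : y ∈ Metric.eball (0 : κ → ℂ) P.radius := by
    rw [Metric.mem_eball, edist_zero_right]
    refine lt_of_lt_of_le ?_ hrad
    rw [← ofReal_norm, ENNReal.ofReal]
    exact ENNReal.coe_lt_coe.2 ((Real.toNNReal_lt_toNNReal_iff hσ).2 hyn)
  have h1 : HasSum (fun K => P K fun _ => y) (P.sum y) := by
    have := hball.hasSum (y := y) hy'
    simpa using this
  have h2 : HasSum (fun x => b x * ∏ i ∈ Finset.range (k x), y (w x i))
      (∑' x, b x * ∏ i ∈ Finset.range (k x), y (w x i)) := hsum.hasSum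
  have h3 := (HasSum.tsum_fiberwise h2 k)
  have h4 : (fun K => ∑' x : k ⁻¹' {K}, b x * ∏ i ∈ Finset.range (k x), y (w x i)) =
      fun K => P K fun _ => y := by
    funext K
    have hset : k ⁻¹' {K} = (F K : Set X) := by
      ext x
      simp [hF]
    rw [hset]
    rw [Finset.tsum_subtype' (F K) fun x => b x * ∏ i ∈ Finset.range (k x), y (w x i)]
    simp only [P, ContinuousMultilinearMap.sum_apply, ContinuousMultilinearMap.smul_apply,
      smul_eq_mul]
    refine Finset.sum_congr rfl fun x hx => ?_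
    rw [q03_mon_diag, (hF K x).1 hx]
  rw [h4] at h3
  rw [h1.unique h3]
  exact h2

end Pool.Agent.KO.Q
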