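import Pool.Agent.KO.Q.Spec

/-!
Project KO, block Q, row Q17: images of invariant analytic sets.
-/

set_option autoImplicit false
set_option maxHeartbeats 400000
set_option linter.unusedSectionVars false

open Filter Topology

namespace Pool.Agent.KO.Q

variable {ι : Type} [Fintype ι]

omit [Fintype ι] in
theorem q17_rot_rot (β : ι → ℕ) (ζ η : ℂ) (q : ι → ℂ) :
    rot β ζ (rot β η q) = rot β (ζ * η) q := by
  ext j
  simp only [rot]
  rw [mul_pow]
  ring

omit [Fintype ι] in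
theorem q17_rot_one (β : ι → ℕ) (q : ι → ℂ) : rot β 1 q = q := by
  ext j
  simp [rot]

/-- The isotypic component of `F` for the character `ζ ↦ ζ^c`. -/
noncomputable def q17_E (β : ι → ℕ) (s : ℕ) (F : (ι → ℂ) → ℂ) (c : ℕ) (q : ι → ℂ) : ℂ :=
  ∑ ζ ∈ Polynomial.nthRootsFinset s (1 : ℂ), ζ ^ c * F (rot β ζ q)

theorem q17_E_rot (β : ι → ℕ) {s : ℕ} (hs : 0 < s) (F : (ι → ℂ) → ℂ) (c : ℕ) (q : ι → ℂ)
    {η : ℂ} (hη : η ^ s = 1) : q17_E β s F c (rot β η q) * η ^ c = q17_E β s F c q := by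
  have hη0 : η ≠ 0 := by
    rintro rfl
    rw [zero_pow hs.ne'] at hη
    exact zero_ne_one hη
  unfold q17_E
  rw [Finset.sum_mul]
  refine Finset.sum_bij' (fun ζ _ => ζ * η) (fun ζ _ => ζ * η⁻¹) ?_ ?_ ?_ ?_ ?_
  · intro ζ hζ
    rw [Polynomial.mem_nthRootsFinset hs] at hζ ⊢
    rw [mul_pow, hζ, hη, one_mul]
  · intro ζ hζ
    rw [Polynomial.mem_nthRootsFinset hs] at hζ ⊢
    rw [mul_pow, hζ, inv_pow, hη, inv_one, one_mul]
  · intro ζ _
    rw [mul_assoc, mul_inv_cancel₀ hη0, mul_one]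
  · intro ζ _
    rw [mul_assoc, inv_mul_cancel₀ hη0, mul_one]
  · intro ζ _
    rw [q17_rot_rot, mul_pow]
    ring

theorem q17_E_pow_rot (β : ι → ℕ) {s : ℕ} (hs : 0 < s) (F : (ι → ℂ) → ℂ) (c : ℕ) (q : ι → ℂ)
    {η : ℂ} (hη : η ^ s = 1) : q17_E β s F c (rot β η q) ^ s = q17_E β s F c q ^ s := by
  rw [← q17_E_rot β hs F c q hη, mul_pow, ← pow_mul, mul_comm c s, pow_mul, hη, one_pow, mul_one]

theorem q17_sum (β : ι → ℕ) {s : ℕ} (hs : 0 < s) (F : (ι → ℂ) → ℂ) (q : ι → ℂ) :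
    ∑ c ∈ Finset.range s, q17_E β s F c q = s * F q := by
  unfold q17_E
  rw [Finset.sum_comm]
  have h1 : (1 : ℂ) ∈ Polynomial.nthRootsFinset s (1 : ℂ) := by
    rw [Polynomial.mem_nthRootsFinset hs, one_pow]
  rw [Finset.sum_eq_single_of_mem 1 h1]
  · simp [q17_rot_one]
  · intro ζ hζ hne
    rw [Polynomial.mem_nthRootsFinset hs] at hζ
    rw [← Finset.sum_mul]
    have h2 : (∑ c ∈ Finset.range s, ζ ^ c) * (ζ - 1) = 0 := by
      rw [geom_sum_mul, hζ, sub_self]
    rcases mul_eq_zero.1 h2 with h | h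
    · rw [h, zero_mul]
    · exact absurd (sub_eq_zero.1 h) hne

/-- Row Q17. -/
theorem sp_set (h6 : SpSt) (h8 : SpInv) (h11 : SpFib) (h12 : SpProp) (h13 : SpNhd)
    (h16 : SpImg) : SpSet := by
  intro ι _ _ a β ha M hM p hp
  obtain ⟨m, F, hF, hFM⟩ := hp
  obtain ⟨hs0, hsa, -, hst, -⟩ := h6 ι a β p ha
  set s := st a β p with hs
  have hsa1 : ∀ ζ : ℂ, ζ ^ s = 1 → ζ ^ a = 1 := by
    intro ζ hζ
    obtain ⟨k, hk⟩ := hsa
    rw [hk, pow_mul, hζ, one_pow]
  have hfix : ∀ ζ : ℂ, ζ ^ s = 1 → rot β ζ p = p := fun ζ hζ => (hst ζ (hsa1 ζ hζ)).1 hζ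
  -- the components are analytic
  have hEan : ∀ i c, AnalyticAt ℂ (q17_E β s (F i) c) p := by
    intro i c
    unfold q17_E
    refine Finset.analyticAt_fun_sum _ fun ζ hζ => ?_
    rw [Polynomial.mem_nthRootsFinset hs0] at hζ
    refine analyticAt_const.mul ?_
    have h1 : AnalyticAt ℂ (F i) (rot β ζ p) := by
      rw [hfix ζ hζ]
      exact hF i
    exact h1.fun_comp ((h12 ι a β ha).2.1 ζ p)
  have hG : ∀ x : Fin m × Fin s, ∃ G : (Ix a β → ℂ) → ℂ, AnalyticAt ℂ G (cc a β p) ∧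
      ∀ᶠ q in 𝓝 p, q17_E β s (F x.1) x.2 q ^ s = G (cc a β q) := by
    intro x
    refine h8 ι a β p ha (fun q => q17_E β s (F x.1) x.2 q ^ s) ((hEan x.1 x.2).pow s) ?_
    intro η hη
    exact Eventually.of_forall fun q => q17_E_pow_rot β hs0 (F x.1) x.2 q hη
  choose G hGan hGe using hG
  -- the equations near `p`
  have hU : ∀ᶠ q in 𝓝 p, (q ∈ M ↔ ∀ x, G x (cc a β q) = 0) := by
    have h1 : ∀ᶠ q in 𝓝 p, ∀ ζ ∈ Polynomial.nthRootsFinset s (1 : ℂ),
        (rot β ζ q ∈ M ↔ ∀ i, F i (rot β ζ q) = 0) := by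
      rw [eventually_all_finset]
      intro ζ hζ
      rw [Polynomial.mem_nthRootsFinset hs0] at hζ
      have hc : Tendsto (rot β ζ) (𝓝 p) (𝓝 p) := by
        have := ((h12 ι a β ha).2.1 ζ p).continuousAt.tendsto
        rwa [hfix ζ hζ] at this
      exact hc.eventually hFM
    filter_upwards [h1, hFM, eventually_all.2 hGe] with q h1 h2 h3
    constructor
    · intro hq x
      rw [← h3 x]
      have : q17_E β s (F x.1) x.2 q = 0 := by
        unfold q17_E
        refine Finset.sum_eq_zero fun ζ hζ => ?_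
        have hζ' := hζ
        rw [Polynomial.mem_nthRootsFinset hs0] at hζ'
        rw [((h1 ζ hζ).1 (hM ζ (hsa1 ζ hζ') q hq)) x.1, mul_zero]
      rw [this, zero_pow hs0.ne']
    · intro hq
      rw [h2]
      intro i
      have h4 := q17_sum β hs0 (F i) q
      rw [Finset.sum_eq_zero] at h4
      · have : (s : ℂ) ≠ 0 := Nat.cast_ne_zero.2 hs0.ne'
        rcases mul_eq_zero.1 h4.symm with h | h
        · exact absurd h this
        · exact h
      · intro c hc
        have h5 := h3 (i, ⟨c, Finset.mem_range.1 hc⟩)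
        rw [hq] at h5
        exact pow_eq_zero_iff hs0.ne' |>.1 h5
  obtain ⟨n, P, hP⟩ := h16 ι a β ha
  have hnhd := h13 ι a β ha p _ hU
  -- all equations
  let e : Fin (n + Fintype.card (Fin m × Fin s)) ≃ Fin n ⊕ (Fin m × Fin s) :=
    finSumFinEquiv.symm.trans (Equiv.sumCongr (Equiv.refl _) (Fintype.equivFin _).symm)
  refine ⟨n + Fintype.card (Fin m × Fin s), fun k y =>
    Sum.elim (fun j => MvPolynomial.eval y (P j)) (fun x => G x y) (e k), ?_, ?_⟩
  · intro k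
    show AnalyticAt ℂ (fun y => Sum.elim (fun j => MvPolynomial.eval y (P j)) (fun x => G x y)
      (e k)) (cc a β p)
    rcases e k with j | x
    · simp only [Sum.elim_inl]
      have h1 := AnalyticAt.aeval_mvPolynomial (𝕜 := ℂ) (z := cc a β p)
        (f := fun (y : Ix a β → ℂ) => y) (fun i =>
          (ContinuousLinearMap.proj (R := ℂ) (φ := fun _ : Ix a β => ℂ) i).analyticAt _) (P j)
      exact h1
    · simp only [Sum.elim_inr]
      exact hGan x
  · filter_upwards [hnhd] with y hy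
    have hcc : ∀ (ζ : ℂ) (q : ι → ℂ), ζ ^ a = 1 → cc a β (rot β ζ q) = cc a β q := by
      intro ζ q hζ
      exact ((h11 ι a β ha q (rot β ζ q)).2 ⟨ζ, hζ, rfl⟩).symm
    constructor
    · rintro ⟨q, hq, rfl⟩ k
      rcases hk : e k with j | x
      · simp only [Sum.elim_inl]
        exact (hP _).1 ⟨q, rfl⟩ j
      · simp only [Sum.elim_inr]
        obtain ⟨ζ, hζ, hz⟩ := hy q rfl
        have h1 := hz.1 (hM ζ hζ q hq) x
        rwa [hcc ζ q hζ] at h1
    · intro hk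
      have h1 : ∀ j, MvPolynomial.eval y (P j) = 0 := by
        intro j
        have := hk (e.symm (Sum.inl j))
        simpa using this
      have h2 : ∀ x, G x y = 0 := by
        intro x
        have := hk (e.symm (Sum.inr x))
        simpa using this
      obtain ⟨q, rfl⟩ := (hP y).2 h1
      obtain ⟨ζ, hζ, hz⟩ := hy q rfl
      refine ⟨rot β ζ q, hz.2 ?_, hcc ζ q hζ⟩
      intro x
      rw [hcc ζ q hζ]
      exact h2 x

end Pool.Agent.KO.Q
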