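import Pool.Agent.KO.Q.Spec

/-!
Project KO, block Q, row Q06: the stabilizer of `p`.
-/

set_option autoImplicit false
set_option maxHeartbeats 400000

namespace Pool.Agent.KO.Q

theorem q06_step (b d N : ℕ) (hd : 0 < d) (h : Nat.gcd b d ∣ N) : ∃ t : ℕ, d ∣ N + t * b := by
  obtain ⟨k, hk⟩ := h
  have hb : ((Nat.gcd b d : ℕ) : ℤ) = (b : ℤ) * Nat.gcdA b d + (d : ℤ) * Nat.gcdB b d :=
    Nat.gcd_eq_gcd_ab b d
  have hd' : (0 : ℤ) < d := by exact_mod_cast hd
  set y : ℤ := (-((k : ℤ) * Nat.gcdA b d)) % (d : ℤ) with hy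
  have hy0 : 0 ≤ y := Int.emod_nonneg _ hd'.ne'
  refine ⟨y.toNat, ?_⟩
  have h1 : (((N + y.toNat * b : ℕ)) : ℤ) = N + y * b := by
    push_cast
    rw [Int.toNat_of_nonneg hy0]
  rw [← Int.natCast_dvd_natCast, h1]
  have h2 : (d : ℤ) ∣ -((k : ℤ) * Nat.gcdA b d) - y := by
    rw [hy]
    exact Int.dvd_self_sub_emod
  obtain ⟨z, hz⟩ := h2
  have h3 : (N : ℤ) = (k : ℤ) * ((b : ℤ) * Nat.gcdA b d + (d : ℤ) * Nat.gcdB b d) := by
    rw [← hb, hk]
    push_cast
    ring
  refine ⟨(k : ℤ) * Nat.gcdB b d - z * b, ?_⟩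
  have h4 : y = -((k : ℤ) * Nat.gcdA b d) - (d : ℤ) * z := by linarith
  rw [h3, h4]
  ring

theorem q06_ind (ι : Type) [Fintype ι] [DecidableEq ι] (a : ℕ) (β : ι → ℕ) (ha : 0 < a)
    (J : Finset ι) : ∀ N : ℕ, Nat.gcd a (J.gcd β) ∣ N →
    ∃ δ : ι → ℕ, (∀ j, j ∉ J → δ j = 0) ∧ a ∣ N + ∑ j, δ j * β j := by
  induction J using Finset.induction_on with
  | empty =>
    intro N hN
    refine ⟨fun _ => 0, fun _ _ => rfl, ?_⟩
    simpa using hN
  | insert i J hi ih =>
    intro N hN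
    have hd : 0 < Nat.gcd a (J.gcd β) := Nat.gcd_pos_of_pos_left _ ha
    have h1 : Nat.gcd (β i) (Nat.gcd a (J.gcd β)) ∣ N := by
      refine dvd_trans ?_ hN
      rw [Finset.gcd_insert]
      refine Nat.dvd_gcd ?_ ?_
      · exact (Nat.gcd_dvd_right _ _).trans (Nat.gcd_dvd_left _ _)
      · refine dvd_gcd (Nat.gcd_dvd_left _ _) ?_
        exact (Nat.gcd_dvd_right _ _).trans (Nat.gcd_dvd_right _ _)
    obtain ⟨t, ht⟩ := q06_step (β i) _ N hd h1
    obtain ⟨δ, hδ, hs⟩ := ih (N + t * β i) ht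
    refine ⟨fun j => δ j + if j = i then t else 0, ?_, ?_⟩
    · intro j hj
      rw [Finset.mem_insert, not_or] at hj
      simp [hj.1, hδ j hj.2]
    · have h2 : ∑ j, (δ j + if j = i then t else 0) * β j = ∑ j, δ j * β j + t * β i := by
        simp only [add_mul, Finset.sum_add_distrib]
        congr 1
        rw [Finset.sum_eq_single i]
        · simp
        · intro j _ hj
          simp [hj]
        · intro h
          exact absurd (Finset.mem_univ i) h
      rw [h2]
      have h3 : N + (∑ j, δ j * β j + t * β i) = N + t * β i + ∑ j, δ j * β j := by ring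
      rw [h3]
      exact hs

theorem sp_st : SpSt := by
  classical
  intro ι _ a β p ha
  have hdvd : st a β p ∣ a := Nat.gcd_dvd_left _ _
  have hβ : ∀ j, p j ≠ 0 → st a β p ∣ β j := by
    intro j hj
    exact (Nat.gcd_dvd_right _ _).trans
      (Finset.gcd_dvd (Finset.mem_filter.2 ⟨Finset.mem_univ j, hj⟩))
  refine ⟨Nat.gcd_pos_of_pos_left _ ha, hdvd, hβ, ?_, ?_⟩
  · intro ζ hζ
    constructor
    · intro h
      funext j
      by_cases hj : p j = 0
      · simp [rot, hj]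
      · obtain ⟨c, hc⟩ := hβ j hj
        simp [rot, hc, pow_mul, h]
    · intro h
      rw [← orderOf_dvd_iff_pow_eq_one]
      refine Nat.dvd_gcd (orderOf_dvd_of_pow_eq_one hζ) ?_
      refine Finset.dvd_gcd ?_
      intro j hj
      have hj' : p j ≠ 0 := (Finset.mem_filter.1 hj).2
      apply orderOf_dvd_of_pow_eq_one
      have h1 := congrFun h j
      simp only [rot] at h1
      exact (mul_eq_right₀ hj').1 h1
  · intro N hN
    obtain ⟨δ, hδ, hs⟩ := q06_ind ι a β ha (Finset.univ.filter fun j => p j ≠ 0) N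
      (by
        have he : Nat.gcd a ((Finset.univ.filter fun j => p j ≠ 0).gcd β) = st a β p := by
          unfold st
          congr!
        rw [he]
        exact hN)
    refine ⟨δ, ?_, hs⟩
    intro j hj
    exact hδ j (by simp [hj])

end Pool.Agent.KO.Q
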