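import Pool.Agent.KO.Q.Spec

/-!
Project KO, block Q, row Q01: invariant monomials are products of the chosen ones (helper89).
-/

set_option autoImplicit false
set_option maxHeartbeats 400000

open Filter Topology

namespace Pool.Agent.KO.Q

section

variable {ι : Type} [Fintype ι]

open Classical in
/-- The monomial `q_j ^ a`. -/
noncomputable def q01_pow (a : ℕ) (β : ι → ℕ) (ha : 0 < a) (j : ι) : Ix a β where
  γ := Pi.single j (Fin.last a)
  ne := by
    intro h
    have h1 := congrFun h j
    rw [Pi.single_eq_same] at h1
    have h2 := congrArg Fin.val h1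
    simp at h2
    omega
  dvd := by
    apply Finset.dvd_sum
    intro i _
    by_cases hi : i = j
    · subst hi
      rw [Pi.single_eq_same]
      exact Dvd.intro _ rfl
    · rw [Pi.single_eq_of_ne hi]
      simp

theorem q01_cc (a : ℕ) (β : ι → ℕ) (ha : 0 < a) (j : ι) (q : ι → ℂ) :
    cc a β q (q01_pow a β ha j) = q j ^ a := by
  classical
  unfold cc
  rw [Finset.prod_eq_single j]
  · simp [q01_pow]
  · intro i _ hi
    simp [q01_pow, Pi.single_eq_of_ne hi]
  · intro h
    exact absurd (Finset.mem_univ j) h

end

theorem sp_word : SpWord := by
  intro ι _ _ a β ha γ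
  classical
  generalize hS : ∑ j, γ j = S
  induction S using Nat.strong_induction_on generalizing γ with
  | _ S ih =>
    intro hd
    have hcard : 0 < Fintype.card ι := Fintype.card_pos
    by_cases h0 : ∀ j, γ j = 0
    · refine ⟨0, fun _ => q01_pow a β ha (Classical.arbitrary ι), ?_, fun q => ?_⟩
      · rw [← hS]
        simp [h0]
      · simp [h0]
    · by_cases h1 : ∃ j, a ≤ γ j
      · obtain ⟨j, hj⟩ := h1
        set γ' : ι → ℕ := Function.update γ j (γ j - a) with hγ'
        have hsum : ∑ i, γ i = ∑ i, γ' i + a := by
          have e1 := Finset.add_sum_erase Finset.univ γ (Finset.mem_univ j)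
          have e2 := Finset.add_sum_erase Finset.univ γ' (Finset.mem_univ j)
          have e3 : ∑ i ∈ Finset.univ.erase j, γ' i = ∑ i ∈ Finset.univ.erase j, γ i := by
            apply Finset.sum_congr rfl
            intro i hi
            rw [hγ', Function.update_of_ne (Finset.ne_of_mem_erase hi)]
          have e4 : γ' j = γ j - a := by rw [hγ', Function.update_self]
          rw [← e1, ← e2, e3, e4]
          omega
        have hsum2 : ∑ i, γ i * β i = ∑ i, γ' i * β i + a * β j := by
          have e1 := Finset.add_sum_erase Finset.univ (fun i => γ i * β i) (Finset.mem_univ j)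
          have e2 := Finset.add_sum_erase Finset.univ (fun i => γ' i * β i) (Finset.mem_univ j)
          have e3 : ∑ i ∈ Finset.univ.erase j, γ' i * β i =
              ∑ i ∈ Finset.univ.erase j, γ i * β i := by
            apply Finset.sum_congr rfl
            intro i hi
            rw [hγ', Function.update_of_ne (Finset.ne_of_mem_erase hi)]
          have e4 : γ' j = γ j - a := by rw [hγ', Function.update_self]
          have e5 : γ j * β j = γ' j * β j + a * β j := by
            rw [e4, ← Nat.add_mul, Nat.sub_add_cancel hj]
          rw [← e1, ← e2, e3, e5]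
          ring
        have hd' : a ∣ ∑ i, γ' i * β i := by
          have h2 : a ∣ a * β j := Dvd.intro _ rfl
          rw [hsum2] at hd
          exact (Nat.dvd_add_left h2).1 hd
        obtain ⟨k, w, hk, hw⟩ := ih (∑ i, γ' i) (by omega) γ' rfl hd'
        refine ⟨k + 1, fun i => if i = k then q01_pow a β ha j else w i, ?_, fun q => ?_⟩
        · rw [← hS, hsum]
          have h3 : a ≤ Fintype.card ι * a := Nat.le_mul_of_pos_left a hcard
          calc ∑ i, γ' i + a ≤ Fintype.card ι * a * k + Fintype.card ι * a :=
                Nat.add_le_add hk h3
            _ = Fintype.card ι * a * (k + 1) := by ring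
        · rw [Finset.prod_range_succ]
          have h4 : ∏ i ∈ Finset.range k, cc a β q (if i = k then q01_pow a β ha j else w i) =
              ∏ i ∈ Finset.range k, cc a β q (w i) := by
            apply Finset.prod_congr rfl
            intro i hi
            rw [if_neg (Finset.mem_range.1 hi).ne]
          rw [h4, ← hw q]
          simp only [if_true]
          rw [q01_cc]
          have e1 := Finset.mul_prod_erase Finset.univ (fun i => q i ^ γ i) (Finset.mem_univ j)
          have e2 := Finset.mul_prod_erase Finset.univ (fun i => q i ^ γ' i) (Finset.mem_univ j)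
          have e3 : ∏ i ∈ Finset.univ.erase j, q i ^ γ' i =
              ∏ i ∈ Finset.univ.erase j, q i ^ γ i := by
            apply Finset.prod_congr rfl
            intro i hi
            rw [hγ', Function.update_of_ne (Finset.ne_of_mem_erase hi)]
          have e4 : γ' j = γ j - a := by rw [hγ', Function.update_self]
          have e5 : q j ^ γ j = q j ^ γ' j * q j ^ a := by
            rw [e4, ← pow_add, Nat.sub_add_cancel hj]
          rw [← e1, ← e2, e3, e5]
          ring
      · push Not at h1
        have hlt : ∀ j, γ j < a + 1 := fun j => lt_trans (h1 j) (Nat.lt_succ_self a)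
        refine ⟨1, fun _ => ⟨fun j => ⟨γ j, hlt j⟩, ?_, hd⟩, ?_, fun q => ?_⟩
        · intro h
          apply h0
          intro j
          have h2 := congrArg Fin.val (congrFun h j)
          simpa using h2
        · rw [← hS, mul_one]
          calc ∑ j, γ j ≤ ∑ _j : ι, a := Finset.sum_le_sum (fun j _ => (h1 j).le)
            _ = Fintype.card ι * a := by simp
        · rw [Finset.prod_range_one]
          rfl

end Pool.Agent.KO.Q
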