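import Pool.Agent.KO.Q.Spec

/-!
Project KO, block Q, row Q04: invariant analytic functions at `0`.
-/

set_option autoImplicit false
set_option maxHeartbeats 400000

open Filter Topology

namespace Pool.Agent.KO.Q

theorem q04_cc_zero {ι : Type} [Fintype ι] (a : ℕ) (β : ι → ℕ) : cc a β 0 = 0 := by
  funext x
  have h : ∃ j, x.γ j ≠ 0 := by
    by_contra hcon
    push Not at hcon
    exact x.ne (funext hcon)
  obtain ⟨j, hj⟩ := h
  have hj' : (x.γ j : ℕ) ≠ 0 := by
    intro h0
    exact hj (Fin.ext h0)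
  unfold cc
  exact Finset.prod_eq_zero (Finset.mem_univ j) (by simp [hj'])

theorem q04_cc_cont {ι : Type} [Fintype ι] (a : ℕ) (β : ι → ℕ) : Continuous (cc a β) := by
  unfold cc
  fun_prop

open Classical in
theorem q04_count {ι : Type} [Fintype ι] {m : ℕ} (x : Fin m → ι) (β : ι → ℕ) :
    ∑ j, (Finset.univ.filter fun i => x i = j).card * β j = ∑ i, β (x i) := by
  have h : ∀ j, (Finset.univ.filter fun i => x i = j).card * β j =
      ∑ i ∈ Finset.univ.filter (fun i => x i = j), β (x i) := by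
    intro j
    rw [Finset.sum_congr rfl (g := fun _ => β j)
      (fun i hi => by rw [(Finset.mem_filter.1 hi).2]), Finset.sum_const, smul_eq_mul]
  rw [Finset.sum_congr rfl fun j _ => h j]
  exact Finset.sum_fiberwise _ _ _

open Classical in
theorem q04_prod {ι : Type} [Fintype ι] {m : ℕ} (x : Fin m → ι) (q : ι → ℂ) :
    ∏ j, q j ^ (Finset.univ.filter fun i => x i = j).card = ∏ i, q (x i) := by
  have h : ∀ j, q j ^ (Finset.univ.filter fun i => x i = j).card =
      ∏ i ∈ Finset.univ.filter (fun i => x i = j), q (x i) := by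
    intro j
    rw [Finset.prod_congr rfl (g := fun _ => q j)
      (fun i hi => by rw [(Finset.mem_filter.1 hi).2]), Finset.prod_const]
  rw [Finset.prod_congr rfl fun j _ => h j]
  exact Finset.prod_fiberwise _ _ _

theorem sp_zero (h1 : SpWord) (h2 : SpExp) (h3 : SpSer) : SpZero := by
  classical
  intro ι _ _ a β ha F hF hinv
  obtain ⟨σ, b, hσ0, hσ1, hsum, hb, hF'⟩ := h2 ι a β ha F hF hinv
  set c : ℕ := Fintype.card ι * a with hc
  have hc0 : 0 < c := Nat.mul_pos Fintype.card_pos ha
  have key : ∀ x : Wd ι, ∃ (k : ℕ) (w : ℕ → Ix a β), x.1 ≤ c * k ∧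
      (a ∣ ∑ i, β (x.2 i) → ∀ q : ι → ℂ, ∏ i, q (x.2 i) = ∏ i ∈ Finset.range k,
        cc a β q (w i)) := by
    intro x
    by_cases hx : a ∣ ∑ i, β (x.2 i)
    · obtain ⟨k, w, hk, hw⟩ := h1 ι a β ha
        (fun j => (Finset.univ.filter fun i => x.2 i = j).card) (by
          rw [q04_count x.2 β]
          exact hx)
      refine ⟨k, w, ?_, fun _ q => ?_⟩
      · have h4 := q04_count x.2 (fun _ => 1)
        simp only [mul_one, Finset.sum_const, Finset.card_univ, Fintype.card_fin,
          smul_eq_mul] at h4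
        rw [← h4]
        exact hk
      · rw [← q04_prod]
        exact hw q
    · obtain ⟨k, w, hk, hw⟩ := h1 ι a β ha (fun _ => 0) (by simp)
      refine ⟨x.1, w, ?_, fun h => absurd h hx⟩
      exact Nat.le_mul_of_pos_left _ hc0
  choose k w hk hw using key
  have hfin : ∀ K, {x : Wd ι | k x ≤ K}.Finite := by
    intro K
    refine (Finset.finite_toSet ((Finset.range (c * K + 1)).sigma
      (fun m => (Finset.univ : Finset (Fin m → ι))))).subset ?_
    intro x hx
    rw [Finset.mem_coe, Finset.mem_sigma]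
    refine ⟨?_, Finset.mem_univ _⟩
    rw [Finset.mem_range]
    have h4 := hk x
    have h5 : c * k x ≤ c * K := Nat.mul_le_mul_left c hx
    omega
  have hσ' : 0 < σ ^ c := pow_pos hσ0 c
  have hsum' : Summable fun x : Wd ι => ‖b x‖ * (σ ^ c) ^ k x := by
    refine Summable.of_nonneg_of_le (fun x => by positivity) (fun x => ?_) hsum
    refine mul_le_mul_of_nonneg_left ?_ (norm_nonneg _)
    rw [← pow_mul]
    exact pow_le_pow_of_le_one hσ0.le hσ1.le (hk x)
  obtain ⟨G, hG, hG'⟩ := h3 (Ix a β) (Wd ι) b k w (σ ^ c) hσ' hsum' hfin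
  refine ⟨G, hG, ?_⟩
  have ht : Tendsto (cc a β) (𝓝 0) (𝓝 0) := by
    have h4 := (q04_cc_cont a β).tendsto 0
    rwa [q04_cc_zero] at h4
  filter_upwards [hF', ht.eventually hG'] with q h4 h5
  have h6 : (fun x : Wd ι => b x * ∏ i ∈ Finset.range (k x), cc a β q (w x i)) =
      fun x : Wd ι => b x * ∏ i, q (x.2 i) := by
    funext x
    by_cases hx : a ∣ ∑ i, β (x.2 i)
    · rw [hw x hx q]
    · rw [hb x hx, zero_mul, zero_mul]
  rw [h6] at h5
  exact h4.unique h5

end Pool.Agent.KO.Q
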