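import Pool.Agent.KO.Q.Main

/-!
Project KO, block Q (cyclic quotients): charts of quotients.
-/

set_option autoImplicit false
set_option maxHeartbeats 400000

open Filter Topology

namespace Pool.Agent.KO.Q

/-- THEOREM Q', charts: let `M` be a closed analytic subset of the open set `Ω₀`, both stable under
the `a`-th roots of unity with weights `β`, and `π : M → X` an open continuous map whose fibres
are the orbits, such that the functions of `X` are those that are analytic on `M`. Then the image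
of `π` has a chart. -/
theorem chart (hfib : SpFib) (hprop : SpProp) (hfun : SpFun) (hset : SpSet)
    {X : Type} [TopologicalSpace X] (O : Shf X)
    {n : ℕ} [Nonempty (Fin n)] (a : ℕ) (ha : 0 < a) (β : Fin n → ℕ)
    (Ω₀ M : Set (Fin n → ℂ)) (hΩ₀ : IsOpen Ω₀)
    (hΩs : ∀ ζ : ℂ, ζ ^ a = 1 → ∀ q ∈ Ω₀, rot β ζ q ∈ Ω₀)
    (hMs : ∀ ζ : ℂ, ζ ^ a = 1 → ∀ q ∈ M, rot β ζ q ∈ M) (hM : IsAn (stdO n) Ω₀ M)
    (π : M → X) (hc : Continuous π) (ho : IsOpenMap π)
    (hπ : ∀ q q' : M, π q = π q' ↔ ∃ ζ : ℂ, ζ ^ a = 1 ∧ (q' : Fin n → ℂ) = rot β ζ q)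
    (hO : ∀ (p : M) (f : X → ℂ), O f (π p) ↔
      ∃ F : (Fin n → ℂ) → ℂ, AnalyticAt ℂ F p ∧ ∀ᶠ q in 𝓝 p, f (π q) = F q) :
    ∃ c : X → Fin (Fintype.card (Ix a β)) → ℂ,
      IsChart O (Set.range π) c (cN a β '' Ω₀ᶜ)ᶜ ∧ ∀ q : M, c (π q) = cN a β q := by
  classical
  obtain ⟨h1, h2, h3, h4, h5⟩ := quot hfib hprop hfun hset a ha β
  obtain ⟨hΩ, hiff, hAn⟩ := h4 Ω₀ M hΩ₀ hΩs hMs hM
  let c : X → Fin (Fintype.card (Ix a β)) → ℂ := fun x =>
    if h : ∃ q : M, π q = x then cN a β h.choose else 0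
  have hcπ : ∀ q : M, c (π q) = cN a β q := by
    intro q
    have h : ∃ q' : M, π q' = π q := ⟨q, rfl⟩
    change (if h : ∃ q' : M, π q' = π q then cN a β h.choose else 0) = _
    rw [dif_pos h]
    exact (h3 _ _).2 ((hπ _ _).1 h.choose_spec)
  have himg : c '' Set.range π = cN a β '' M := by
    ext y
    constructor
    · rintro ⟨_, ⟨q, rfl⟩, rfl⟩
      exact ⟨q, q.2, (hcπ q).symm⟩
    · rintro ⟨q, hq, rfl⟩
      exact ⟨π ⟨q, hq⟩, ⟨⟨q, hq⟩, rfl⟩, hcπ ⟨q, hq⟩⟩
  have hcN : Continuous (cN a β) := h2.continuous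
  -- continuity of `c` on the image
  have hcont : ∀ q : M, ContinuousAt c (π q) := by
    intro q
    rw [ContinuousAt, Filter.tendsto_def]
    intro s hs
    rw [hcπ] at hs
    have h6 : (fun q' : M => cN a β q') ⁻¹' s ∈ 𝓝 q :=
      (hcN.comp continuous_subtype_val).continuousAt.preimage_mem_nhds hs
    have h7 := ho.image_mem_nhds h6
    filter_upwards [h7] with x hx
    obtain ⟨q', hq', rfl⟩ := hx
    change c (π q') ∈ s
    rw [hcπ]
    exact hq'
  have hemb : IsEmbedding (fun x : Set.range π => c x) := by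
    have hinj : Function.Injective (fun x : Set.range π => c x) := by
      rintro ⟨_, ⟨q, rfl⟩⟩ ⟨_, ⟨q', rfl⟩⟩ he
      change c (π q) = c (π q') at he
      rw [hcπ, hcπ, h3] at he
      exact Subtype.ext ((hπ q q').2 he)
    refine ⟨?_, hinj⟩
    rw [isInducing_iff_nhds]
    rintro ⟨_, ⟨q, rfl⟩⟩
    apply le_antisymm
    · rw [← Filter.tendsto_iff_comap]
      have h0 : Tendsto (Subtype.val : Set.range π → X) (𝓝 ⟨π q, ⟨q, rfl⟩⟩) (𝓝 (π q)) :=
        continuous_subtype_val.tendsto _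
      exact (hcont q).tendsto.comp h0
    · intro s hs
      rw [nhds_subtype_eq_comap, Filter.mem_comap] at hs
      obtain ⟨t, ht, hts⟩ := hs
      obtain ⟨t', ht't, ht'o, ht'⟩ := mem_nhds_iff.1 ht
      -- the open set `V` with `M ∩ V = π⁻¹ t'`
      have hV : IsOpen (π ⁻¹' t') := ht'o.preimage hc
      obtain ⟨V, hVo, hV'⟩ := isOpen_induced_iff.1 hV
      rw [Filter.mem_comap]
      -- the set `cN '' (M \ V)` is closed in `Ω`
      have hcl : IsClosed (closure (M \ V)) := isClosed_closure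
      refine ⟨(cN a β '' (closure (M \ V)))ᶜ, ?_, ?_⟩
      · apply (h2.isClosedMap _ hcl).isOpen_compl.mem_nhds
        change c (π q) ∉ _
        rw [hcπ]
        rintro ⟨q', hq', he⟩
        have hqΩ : (q : Fin n → ℂ) ∈ Ω₀ := hM.1 q.2
        obtain ⟨ζ, hζ, he'⟩ := (h3 _ _).1 he.symm
        have hq'Ω : q' ∈ Ω₀ := by rw [he']; exact hΩs ζ hζ _ hqΩ
        have hq'M : q' ∈ M := by rw [he']; exact hMs ζ hζ _ q.2
        have hq'V : q' ∈ V := by
          have h8 : (⟨q', hq'M⟩ : M) ∈ Subtype.val ⁻¹' V := by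
            rw [hV']
            change π ⟨q', hq'M⟩ ∈ t'
            rw [← (hπ q ⟨q', hq'M⟩).2 ⟨ζ, hζ, he'⟩]
            exact ht'
          exact h8
        have h9 := mem_closure_iff.1 hq' V hVo hq'V
        obtain ⟨z, hz, hz'⟩ := h9
        exact hz'.2 hz
      · rintro ⟨_, ⟨q', rfl⟩⟩ hq'
        change c (π q') ∉ _ at hq'
        rw [hcπ] at hq'
        apply hts
        change π q' ∈ t
        apply ht't
        by_contra hnt
        apply hq'
        refine ⟨q', subset_closure ⟨q'.2, fun hqV => hnt ?_⟩, rfl⟩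
        have h8 : q' ∈ Subtype.val ⁻¹' V := hqV
        rw [hV'] at h8
        exact h8
  refine ⟨c, ⟨ho.isOpen_range, hΩ, hemb, ?_, ?_⟩, hcπ⟩
  · rw [himg]
    exact hAn
  · rintro _ ⟨p, rfl⟩ f
    rw [hO p f]
    constructor
    · rintro ⟨F, hF, hf⟩
      let f' : (Fin n → ℂ) → ℂ := fun q => if h : q ∈ M then f (π ⟨q, h⟩) else 0
      have hf' : ∀ q : M, f' q = f (π q) := by
        intro q
        change (if h : (q : Fin n → ℂ) ∈ M then f (π ⟨q, h⟩) else 0) = _
        rw [dif_pos q.2]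
      have h6 : AnFunAt M f' (p : Fin n → ℂ) := by
        refine ⟨F, hF, ?_⟩
        have h7 : ∀ᶠ q : M in 𝓝 p, f' q = F q := by
          filter_upwards [hf] with q hq
          rw [hf', hq]
        rw [eventually_nhds_subtype_iff M p (fun q => f' q = F q), eventually_nhdsWithin_iff] at h7
        exact h7
      obtain ⟨G, hG, hGf⟩ := h5 M hMs f' (fun ζ hζ q hq => by
        rw [hf' ⟨q, hq⟩, hf' ⟨_, hMs ζ hζ q hq⟩]
        congr 1
        exact ((hπ ⟨q, hq⟩ ⟨_, hMs ζ hζ q hq⟩).2 ⟨ζ, hζ, rfl⟩).symm) p h6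
      refine ⟨G, by rw [hcπ]; exact hG, ?_⟩
      have h8 : ∀ᶠ x in 𝓝 (π p), ∀ q ∈ M, cN a β q = c x → f' q = G (c x) := by
        have h9 := hcont p
        rw [ContinuousAt, hcπ] at h9
        exact h9.eventually hGf
      have h10 : Set.range π ∈ 𝓝 (π p) := ho.isOpen_range.mem_nhds ⟨p, rfl⟩
      filter_upwards [h8, h10] with x hx hr
      obtain ⟨q, rfl⟩ := hr
      have h11 := hx q q.2 (hcπ q).symm
      rw [hf'] at h11
      exact h11
    · rintro ⟨F, hF, hf⟩
      rw [hcπ] at hF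
      refine ⟨F ∘ cN a β, hF.comp (h1 p), ?_⟩
      have h6 : ∀ᶠ q : M in 𝓝 p, f (π q) = (F ∘ c) (π q) := hc.continuousAt.eventually hf
      filter_upwards [h6] with q hq
      rw [hq]
      change F (c (π q)) = F (cN a β q)
      rw [hcπ]

end Pool.Agent.KO.Q
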