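import Mathlib

/-!
Project KO, block Q (cyclic quotients): definitions.
-/

set_option autoImplicit false
set_option maxHeartbeats 400000

open Filter Topology

namespace Pool.Agent.KO.Q

variable {ι : Type} [Fintype ι]

/-- The action of the `a`-th roots of unity with weights `β`. -/
def rot (β : ι → ℕ) (ζ : ℂ) (q : ι → ℂ) : ι → ℂ := fun j => ζ ^ β j * q j

/-- The exponents of the invariant monomials. -/
@[ext]
structure Ix (a : ℕ) (β : ι → ℕ) : Type where
  γ : ι → Fin (a + 1)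
  ne : γ ≠ 0
  dvd : a ∣ ∑ j, (γ j : ℕ) * β j

noncomputable instance (a : ℕ) (β : ι → ℕ) : Fintype (Ix a β) := by
  classical
  exact Fintype.ofInjective (fun x : Ix a β => x.γ) fun _ _ h => Ix.ext h

/-- The quotient map. -/
def cc (a : ℕ) (β : ι → ℕ) (q : ι → ℂ) : Ix a β → ℂ := fun x => ∏ j, q j ^ (x.γ j : ℕ)

/-- `M` is given by finitely many analytic equations near `p`. -/
def AnSetAt (M : Set (ι → ℂ)) (p : ι → ℂ) : Prop :=
  ∃ (m : ℕ) (F : Fin m → (ι → ℂ) → ℂ), (∀ i, AnalyticAt ℂ (F i) p) ∧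
    ∀ᶠ q in 𝓝 p, (q ∈ M ↔ ∀ i, F i q = 0)

/-- `f` is on `M` near `p` the restriction of an analytic function. -/
def AnFunAt (M : Set (ι → ℂ)) (f : (ι → ℂ) → ℂ) (p : ι → ℂ) : Prop :=
  ∃ F : (ι → ℂ) → ℂ, AnalyticAt ℂ F p ∧ ∀ᶠ q in 𝓝 p, q ∈ M → f q = F q

open Classical in
/-- The order of the stabilizer of `p`. -/
noncomputable def st (a : ℕ) (β : ι → ℕ) (p : ι → ℂ) : ℕ :=
  Nat.gcd a ((Finset.univ.filter fun j => p j ≠ 0).gcd β)

/-- Words in the letters `κ`. -/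
abbrev Wd (κ : Type) : Type := Σ m : ℕ, Fin m → κ

end Pool.Agent.KO.Q
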