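import Pool.Agent.KO.Q.Spec

/-! Project KO, row Q16: the image of the quotient map is algebraic. -/

set_option autoImplicit false
set_option maxHeartbeats 400000

open MvPolynomial

namespace Pool.Agent.KO.Q

variable {ι : Type} [Fintype ι]

/-- the comorphism of the quotient map -/
noncomputable def q16_phi (a : ℕ) (β : ι → ℕ) :
    MvPolynomial (Ix a β) ℂ →ₐ[ℂ] MvPolynomial ι ℂ :=
  aeval (fun x : Ix a β => ∏ j, (X j : MvPolynomial ι ℂ) ^ (x.γ j : ℕ))

theorem q16_eval (a : ℕ) (β : ι → ℕ) (q : ι → ℂ) (P : MvPolynomial (Ix a β) ℂ) :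
    eval q (q16_phi a β P) = eval (cc a β q) P := by
  have h : (aeval q : MvPolynomial ι ℂ →ₐ[ℂ] ℂ).comp (q16_phi a β) = aeval (cc a β q) := by
    apply MvPolynomial.algHom_ext
    intro x
    simp only [q16_phi, AlgHom.comp_apply, aeval_X, map_prod, map_pow, cc]
  have h2 := congrArg (fun f : MvPolynomial (Ix a β) ℂ →ₐ[ℂ] ℂ => f P) h
  simp only [AlgHom.comp_apply] at h2
  rw [MvPolynomial.aeval_eq_eval, MvPolynomial.aeval_eq_eval] at h2
  exact h2

theorem q16_pow (a : ℕ) (β : ι → ℕ) (ha : 0 < a) (j : ι) :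
    (X j : MvPolynomial ι ℂ) ^ a ∈ (q16_phi a β).range := by
  classical
  let g : ι → Fin (a + 1) := Pi.single j ⟨a, Nat.lt_succ_self a⟩
  have hgj : (g j : ℕ) = a := by simp [g]
  have hgi : ∀ i, i ≠ j → (g i : ℕ) = 0 := by
    intro i hi
    simp [g, Pi.single_eq_of_ne hi]
  have hne : g ≠ 0 := by
    intro h
    have h1 := congrArg (fun f : ι → Fin (a + 1) => (f j : ℕ)) h
    simp only [Pi.zero_apply, Fin.val_zero] at h1
    omega
  have hdvd : a ∣ ∑ i, (g i : ℕ) * β i := by
    rw [Finset.sum_eq_single j]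
    · rw [hgj]
      exact dvd_mul_right a _
    · intro i _ hi
      rw [hgi i hi, zero_mul]
    · intro h
      exact absurd (Finset.mem_univ j) h
  refine ⟨X (⟨g, hne, hdvd⟩ : Ix a β), ?_⟩
  show q16_phi a β (X (⟨g, hne, hdvd⟩ : Ix a β)) = X j ^ a
  rw [q16_phi, aeval_X, Finset.prod_eq_single j]
  · show (X j : MvPolynomial ι ℂ) ^ (g j : ℕ) = X j ^ a
    rw [hgj]
  · intro i _ hi
    show (X i : MvPolynomial ι ℂ) ^ (g i : ℕ) = 1
    rw [hgi i hi, pow_zero]
  · intro h
    exact absurd (Finset.mem_univ j) h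

theorem q16_int (a : ℕ) (β : ι → ℕ) (ha : 0 < a) (p : MvPolynomial ι ℂ) :
    IsIntegral (q16_phi a β).range p := by
  induction p using MvPolynomial.induction_on with
  | C c =>
    have h : (C c : MvPolynomial ι ℂ) = algebraMap (q16_phi a β).range (MvPolynomial ι ℂ)
        (algebraMap ℂ (q16_phi a β).range c) := rfl
    rw [h]
    exact isIntegral_algebraMap
  | add p q hp hq => exact hp.add hq
  | mul_X p j hp =>
    refine hp.mul ?_
    refine IsIntegral.of_pow ha ?_
    have h : (X j : MvPolynomial ι ℂ) ^ a = algebraMap (q16_phi a β).range (MvPolynomial ι ℂ)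
        ⟨X j ^ a, q16_pow a β ha j⟩ := rfl
    rw [h]
    exact isIntegral_algebraMap

theorem sp_img (h15 : SpLift) : SpImg := by
  intro ι _ _ a β ha
  obtain ⟨S, hS⟩ : (RingHom.ker (q16_phi a β)).FG := IsNoetherian.noetherian _
  refine ⟨S.card, fun i => (S.equivFin.symm i : MvPolynomial (Ix a β) ℂ), fun y => ?_⟩
  constructor
  · rintro ⟨q, rfl⟩ i
    rw [← q16_eval]
    have h1 : ((S.equivFin.symm i : MvPolynomial (Ix a β) ℂ)) ∈ RingHom.ker (q16_phi a β) := by
      rw [← hS]
      exact Ideal.subset_span (S.equivFin.symm i).2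
    rw [RingHom.mem_ker] at h1
    rw [h1, map_zero]
  · intro hy
    have hker : ∀ b ∈ RingHom.ker (q16_phi a β).rangeRestrict,
        (aeval y : MvPolynomial (Ix a β) ℂ →ₐ[ℂ] ℂ) b = 0 := by
      intro b hb
      have hb1 : b ∈ RingHom.ker (q16_phi a β) := by
        rw [RingHom.mem_ker] at hb ⊢
        exact congrArg Subtype.val hb
      rw [← hS] at hb1
      have hle : Ideal.span (S : Set (MvPolynomial (Ix a β) ℂ)) ≤
          RingHom.ker (aeval y : MvPolynomial (Ix a β) ℂ →ₐ[ℂ] ℂ) := by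
        rw [Ideal.span_le]
        intro s hs
        have h2 : eval y ((S.equivFin.symm (S.equivFin ⟨s, hs⟩) : S) :
            MvPolynomial (Ix a β) ℂ) = 0 := hy (S.equivFin ⟨s, hs⟩)
        rw [Equiv.symm_apply_apply] at h2
        show s ∈ RingHom.ker (aeval y : MvPolynomial (Ix a β) ℂ →ₐ[ℂ] ℂ)
        rw [RingHom.mem_ker, MvPolynomial.aeval_eq_eval]
        exact h2
      exact hle hb1
    have hsurj : Function.Surjective (q16_phi a β).rangeRestrict :=
      AlgHom.rangeRestrict_surjective _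
    let ψ : (q16_phi a β).range →ₐ[ℂ] ℂ :=
      (Ideal.Quotient.liftₐ (RingHom.ker (q16_phi a β).rangeRestrict)
        (aeval y : MvPolynomial (Ix a β) ℂ →ₐ[ℂ] ℂ) hker).comp
        (Ideal.quotientKerAlgEquivOfSurjective hsurj).symm.toAlgHom
    have hψ : ∀ b : MvPolynomial (Ix a β) ℂ, ψ ((q16_phi a β).rangeRestrict b) = aeval y b := by
      intro b
      have h3 : (Ideal.quotientKerAlgEquivOfSurjective hsurj).symm
          ((q16_phi a β).rangeRestrict b) = Ideal.Quotient.mk _ b := by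
        rw [AlgEquiv.symm_apply_eq]
        rfl
      show (Ideal.Quotient.liftₐ (RingHom.ker (q16_phi a β).rangeRestrict)
        (aeval y : MvPolynomial (Ix a β) ℂ →ₐ[ℂ] ℂ) hker)
        ((Ideal.quotientKerAlgEquivOfSurjective hsurj).symm ((q16_phi a β).rangeRestrict b)) = _
      rw [h3]
      rfl
    obtain ⟨Φ, hΦ⟩ := h15 (MvPolynomial ι ℂ) (q16_phi a β).range (q16_int a β ha) ψ
    refine ⟨fun j => Φ (X j), ?_⟩
    funext x
    show ∏ j, Φ (X j) ^ (x.γ j : ℕ) = y x
    have h4 : ∏ j, Φ (X j) ^ (x.γ j : ℕ) = Φ (q16_phi a β (X x)) := by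
      rw [q16_phi, aeval_X, map_prod]
      refine Finset.prod_congr rfl fun j _ => ?_
      rw [map_pow]
    rw [h4]
    have h5 := hΦ ((q16_phi a β).rangeRestrict (X x))
    have h6 : (((q16_phi a β).rangeRestrict (X x) : (q16_phi a β).range) : MvPolynomial ι ℂ) =
        q16_phi a β (X x) := rfl
    rw [h6, hψ, aeval_X] at h5
    exact h5

end Pool.Agent.KO.Q
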