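import Pool.Agent.KO.Q.Chart
import Pool.Agent.KO.Q.Word
import Pool.Agent.KO.Q.Exp
import Pool.Agent.KO.Q.Ser
import Pool.Agent.KO.Q.Zero
import Pool.Agent.KO.Q.Root
import Pool.Agent.KO.Q.St
import Pool.Agent.KO.Q.Mon
import Pool.Agent.KO.Q.Inv
import Pool.Agent.KO.Q.Poly
import Pool.Agent.KO.Q.Orb
import Pool.Agent.KO.Q.Fib
import Pool.Agent.KO.Q.Prop
import Pool.Agent.KO.Q.Nhd
import Pool.Agent.KO.Q.Fun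
import Pool.Agent.KO.Q.Lift
import Pool.Agent.KO.Q.Img
import Pool.Agent.KO.Q.Set

/-!
Project KO, block Q (cyclic quotients): the theorems without hypotheses.
-/

set_option autoImplicit false
set_option maxHeartbeats 400000

open Filter Topology

namespace Pool.Agent.KO.Q

theorem full_inv : SpInv :=
  sp_inv (sp_zero sp_word sp_exp sp_ser) sp_st (sp_mon sp_word sp_root sp_st)

theorem full_fib : SpFib := sp_fib (sp_poly sp_word) sp_orb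

theorem full_nhd : SpNhd := sp_nhd full_fib sp_prop

theorem full_fun : SpFun := sp_fun sp_st full_inv full_nhd sp_prop full_fib

theorem full_set : SpSet := sp_set sp_st full_inv full_fib sp_prop full_nhd (sp_img sp_lift)

/-- THEOREM Q: cyclic quotients. -/
theorem quot' {n : ℕ} [Nonempty (Fin n)] (a : ℕ) (ha : 0 < a) (β : Fin n → ℕ) :
    (∀ p, AnalyticAt ℂ (cN a β) p) ∧ IsProperMap (cN a β) ∧
    (∀ p q, cN a β p = cN a β q ↔ ∃ ζ : ℂ, ζ ^ a = 1 ∧ q = rot β ζ p) ∧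
    (∀ O M : Set (Fin n → ℂ), IsOpen O → (∀ ζ : ℂ, ζ ^ a = 1 → ∀ q ∈ O, rot β ζ q ∈ O) →
      (∀ ζ : ℂ, ζ ^ a = 1 → ∀ q ∈ M, rot β ζ q ∈ M) → IsAn (stdO n) O M →
      IsOpen (cN a β '' Oᶜ)ᶜ ∧ (∀ q, cN a β q ∈ (cN a β '' Oᶜ)ᶜ ↔ q ∈ O) ∧
      IsAn (stdO _) (cN a β '' Oᶜ)ᶜ (cN a β '' M)) ∧
    (∀ M : Set (Fin n → ℂ), (∀ ζ : ℂ, ζ ^ a = 1 → ∀ q ∈ M, rot β ζ q ∈ M) →
      ∀ f : (Fin n → ℂ) → ℂ, (∀ ζ : ℂ, ζ ^ a = 1 → ∀ q ∈ M, f (rot β ζ q) = f q) →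
      ∀ p : Fin n → ℂ, AnFunAt M f p →
      ∃ G : (Fin (Fintype.card (Ix a β)) → ℂ) → ℂ, AnalyticAt ℂ G (cN a β p) ∧
        ∀ᶠ y in 𝓝 (cN a β p), ∀ q ∈ M, cN a β q = y → f q = G y) :=
  quot full_fib sp_prop full_fun full_set a ha β

/-- THEOREM Q', charts. -/
theorem chart' {X : Type} [TopologicalSpace X] (O : Shf X)
    {n : ℕ} [Nonempty (Fin n)] (a : ℕ) (ha : 0 < a) (β : Fin n → ℕ)
    (Ω₀ M : Set (Fin n → ℂ)) (hΩ₀ : IsOpen Ω₀)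
    (hΩs : ∀ ζ : ℂ, ζ ^ a = 1 → ∀ q ∈ Ω₀, rot β ζ q ∈ Ω₀)
    (hMs : ∀ ζ : ℂ, ζ ^ a = 1 → ∀ q ∈ M, rot β ζ q ∈ M) (hM : IsAn (stdO n) Ω₀ M)
    (π : M → X) (hc : Continuous π) (ho : IsOpenMap π)
    (hπ : ∀ q q' : M, π q = π q' ↔ ∃ ζ : ℂ, ζ ^ a = 1 ∧ (q' : Fin n → ℂ) = rot β ζ q)
    (hO : ∀ (p : M) (f : X → ℂ), O f (π p) ↔
      ∃ F : (Fin n → ℂ) → ℂ, AnalyticAt ℂ F p ∧ ∀ᶠ q in 𝓝 p, f (π q) = F q) :
    ∃ c : X → Fin (Fintype.card (Ix a β)) → ℂ,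
      IsChart O (Set.range π) c (cN a β '' Ω₀ᶜ)ᶜ ∧ ∀ q : M, c (π q) = cN a β q :=
  chart full_fib sp_prop full_fun full_set O a ha β Ω₀ M hΩ₀ hΩs hMs hM π hc ho hπ hO

end Pool.Agent.KO.Q
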