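import Pool.Agent.KO.Q.Spec
import Pool.Agent.KO.S.Defs

/-!
Project KO, block Q (cyclic quotients): final assembly.
-/

set_option autoImplicit false
set_option maxHeartbeats 400000

open Filter Topology

namespace Pool.Agent.KO.Q

theorem q18_anSetAt {n : ℕ} {O M : Set (Fin n → ℂ)} (h : IsAn (stdO n) O M)
    {p : Fin n → ℂ} (hp : p ∈ O) : AnSetAt M p := by
  obtain ⟨-, h⟩ := h
  obtain ⟨V, hV, hpV, k, F, hF, hM⟩ := h p hp
  refine ⟨k, F, fun i => hF i p hpV, ?_⟩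
  filter_upwards [hV.mem_nhds hpV] with q hq
  constructor
  · intro hqM i
    have h1 : q ∈ M ∩ V := ⟨hqM, hq⟩
    rw [hM] at h1
    exact h1.2 i
  · intro hi
    have h1 : q ∈ M ∩ V := by rw [hM]; exact ⟨hq, hi⟩
    exact h1.1

theorem q18_open {n : ℕ} {M : Set (Fin n → ℂ)} {p : Fin n → ℂ} (h : AnSetAt M p) :
    ∃ V, IsOpen V ∧ p ∈ V ∧ ∃ (k : ℕ) (F : Fin k → (Fin n → ℂ) → ℂ),
      (∀ i, ∀ y ∈ V, stdO n (F i) y) ∧ M ∩ V = {y | y ∈ V ∧ ∀ i, F i y = 0} := by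
  obtain ⟨m, F, hF, hM⟩ := h
  have h1 : ∀ᶠ q in 𝓝 p, ∀ i, AnalyticAt ℂ (F i) q :=
    Filter.eventually_all.2 fun i => (hF i).eventually_analyticAt
  have h2 := h1.and hM
  refine ⟨interior {q | (∀ i, AnalyticAt ℂ (F i) q) ∧ (q ∈ M ↔ ∀ i, F i q = 0)},
    isOpen_interior, mem_interior_iff_mem_nhds.2 h2, m, F, fun i y hy =>
      (interior_subset hy).1 i, ?_⟩
  ext y
  constructor
  · rintro ⟨hy, hV⟩
    exact ⟨hV, (interior_subset hV).2.1 hy⟩
  · rintro ⟨hV, hi⟩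
    exact ⟨(interior_subset hV).2.2 hi, hV⟩

/-- reindexing -/
noncomputable def hN {ι : Type} [Fintype ι] (a : ℕ) (β : ι → ℕ) :
    (Ix a β → ℂ) ≃ₜ (Fin (Fintype.card (Ix a β)) → ℂ) where
  toFun y i := y ((Fintype.equivFin (Ix a β)).symm i)
  invFun y x := y (Fintype.equivFin (Ix a β) x)
  left_inv y := by funext x; simp
  right_inv y := by funext x; simp
  continuous_toFun := by fun_prop
  continuous_invFun := by fun_prop

theorem q18_hN_analytic {ι : Type} [Fintype ι] (a : ℕ) (β : ι → ℕ) (y : Ix a β → ℂ) :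
    AnalyticAt ℂ (hN a β) y := by
  rw [show (hN a β : (Ix a β → ℂ) → _) =
    fun y i => y ((Fintype.equivFin (Ix a β)).symm i) from rfl]
  rw [analyticAt_pi_iff]
  intro i
  exact (ContinuousLinearMap.proj (R := ℂ) (φ := fun _ : Ix a β => ℂ)
    ((Fintype.equivFin (Ix a β)).symm i)).analyticAt y

theorem q18_hN_symm_analytic {ι : Type} [Fintype ι] (a : ℕ) (β : ι → ℕ)
    (y : Fin (Fintype.card (Ix a β)) → ℂ) : AnalyticAt ℂ (hN a β).symm y := by
  rw [show ((hN a β).symm : _ → (Ix a β → ℂ)) =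
    fun y x => y (Fintype.equivFin (Ix a β) x) from rfl]
  rw [analyticAt_pi_iff]
  intro i
  exact (ContinuousLinearMap.proj (R := ℂ) (φ := fun _ : Fin (Fintype.card (Ix a β)) => ℂ)
    (Fintype.equivFin (Ix a β) i)).analyticAt y

/-- The quotient map, with values in `ℂ^N`. -/
noncomputable def cN {ι : Type} [Fintype ι] (a : ℕ) (β : ι → ℕ) (q : ι → ℂ) :
    Fin (Fintype.card (Ix a β)) → ℂ := hN a β (cc a β q)

theorem q18_transfer {ι : Type} [Fintype ι] {a : ℕ} {β : ι → ℕ} {S : Set (Ix a β → ℂ)}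
    {y : Ix a β → ℂ} (h : AnSetAt S y) : AnSetAt (hN a β '' S) (hN a β y) := by
  obtain ⟨m, F, hF, hS⟩ := h
  refine ⟨m, fun i => F i ∘ (hN a β).symm, fun i => ?_, ?_⟩
  · refine AnalyticAt.comp ?_ (q18_hN_symm_analytic a β _)
    rw [Homeomorph.symm_apply_apply]
    exact hF i
  · have h1 : Tendsto (hN a β).symm (𝓝 (hN a β y)) (𝓝 y) := by
      have h2 := (hN a β).symm.continuous.tendsto (hN a β y)
      rwa [Homeomorph.symm_apply_apply] at h2
    filter_upwards [h1.eventually hS] with z hz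
    constructor
    · rintro ⟨w, hw, rfl⟩
      rw [Homeomorph.symm_apply_apply] at hz
      intro i
      change F i ((hN a β).symm (hN a β w)) = 0
      rw [Homeomorph.symm_apply_apply]
      exact hz.1 hw i
    · intro hi
      exact ⟨(hN a β).symm z, hz.2 hi, (hN a β).apply_symm_apply z⟩

/-- THEOREM Q: cyclic quotients. -/
theorem quot (hfib : SpFib) (hprop : SpProp) (hfun : SpFun) (hset : SpSet)
    {n : ℕ} [Nonempty (Fin n)] (a : ℕ) (ha : 0 < a) (β : Fin n → ℕ) :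
    (∀ p, AnalyticAt ℂ (cN a β) p) ∧ IsProperMap (cN a β) ∧
    (∀ p q, cN a β p = cN a β q ↔ ∃ ζ : ℂ, ζ ^ a = 1 ∧ q = rot β ζ p) ∧
    (∀ O M : Set (Fin n → ℂ), IsOpen O → (∀ ζ : ℂ, ζ ^ a = 1 → ∀ q ∈ O, rot β ζ q ∈ O) →
      (∀ ζ : ℂ, ζ ^ a = 1 → ∀ q ∈ M, rot β ζ q ∈ M) → IsAn (stdO n) O M →
      IsOpen (cN a β '' Oᶜ)ᶜ ∧ (∀ q, cN a β q ∈ (cN a β '' Oᶜ)ᶜ ↔ q ∈ O) ∧
      IsAn (stdO _) (cN a β '' Oᶜ)ᶜ (cN a β '' M)) ∧
    (∀ M : Set (Fin n → ℂ), (∀ ζ : ℂ, ζ ^ a = 1 → ∀ q ∈ M, rot β ζ q ∈ M) →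
      ∀ f : (Fin n → ℂ) → ℂ, (∀ ζ : ℂ, ζ ^ a = 1 → ∀ q ∈ M, f (rot β ζ q) = f q) →
      ∀ p : Fin n → ℂ, AnFunAt M f p →
      ∃ G : (Fin (Fintype.card (Ix a β)) → ℂ) → ℂ, AnalyticAt ℂ G (cN a β p) ∧
        ∀ᶠ y in 𝓝 (cN a β p), ∀ q ∈ M, cN a β q = y → f q = G y) := by
  obtain ⟨hA, -, hP⟩ := hprop (Fin n) a β ha
  have hfib' : ∀ p q, cN a β p = cN a β q ↔ ∃ ζ : ℂ, ζ ^ a = 1 ∧ q = rot β ζ p := by
    intro p q
    rw [← hfib (Fin n) a β ha p q]
    exact (hN a β).injective.eq_iff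
  have hPN : IsProperMap (cN a β) := (hN a β).isProperMap.comp hP
  refine ⟨fun p => (q18_hN_analytic a β _).comp (hA p), hPN, hfib', ?_, ?_⟩
  · intro O M hO hOs hMs hAn
    have hΩ : IsOpen (cN a β '' Oᶜ)ᶜ := (hPN.isClosedMap _ hO.isClosed_compl).isOpen_compl
    have hiff : ∀ q, cN a β q ∈ (cN a β '' Oᶜ)ᶜ ↔ q ∈ O := by
      intro q
      constructor
      · intro h
        by_contra hq
        exact h ⟨q, hq, rfl⟩
      · rintro hq ⟨q', hq', he⟩
        obtain ⟨ζ, hζ, rfl⟩ := (hfib' q q').1 he.symm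
        exact hq' (hOs ζ hζ q hq)
    refine ⟨hΩ, hiff, ?_, ?_⟩
    · rintro _ ⟨q, hq, rfl⟩
      exact (hiff q).2 (hAn.1 hq)
    · intro x hx
      by_cases hr : x ∈ Set.range (cN a β)
      · obtain ⟨p, rfl⟩ := hr
        have hp := (hiff p).1 hx
        have h1 := hset (Fin n) a β ha M hMs p (q18_anSetAt hAn hp)
        have h2 := q18_transfer h1
        have h3 : hN a β '' (cc a β '' M) = cN a β '' M := by
          rw [Set.image_image]
          rfl
        rw [h3] at h2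
        exact q18_open h2
      · have hcl : IsClosed (Set.range (cN a β)) := hPN.isClosedMap.isClosed_range
        refine ⟨(Set.range (cN a β))ᶜ, hcl.isOpen_compl, hr, 1, fun _ _ => 1,
          fun _ _ _ => analyticAt_const, ?_⟩
        ext y
        constructor
        · rintro ⟨⟨q, -, rfl⟩, hy⟩
          exact absurd ⟨q, rfl⟩ hy
        · rintro ⟨-, hy⟩
          exact absurd (hy 0) one_ne_zero
  · intro M hMs f hf p hp
    obtain ⟨G, hG, hGf⟩ := hfun (Fin n) a β ha M hMs f hf p hp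
    refine ⟨G ∘ (hN a β).symm, ?_, ?_⟩
    · refine AnalyticAt.comp ?_ (q18_hN_symm_analytic a β _)
      unfold cN
      rw [Homeomorph.symm_apply_apply]
      exact hG
    · have h1 : Tendsto (hN a β).symm (𝓝 (cN a β p)) (𝓝 (cc a β p)) := by
        have h2 := (hN a β).symm.continuous.tendsto (cN a β p)
        unfold cN at h2
        rwa [Homeomorph.symm_apply_apply] at h2
      filter_upwards [h1.eventually hGf] with z hz q hq he
      change f q = G ((hN a β).symm z)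
      apply hz q hq
      rw [← he]
      unfold cN
      rw [Homeomorph.symm_apply_apply]

end Pool.Agent.KO.Q
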