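import Pool.Agent.KO.Q.Defs

/-!
Project KO, block Q (cyclic quotients): statements of the rows.
-/

set_option autoImplicit false
set_option maxHeartbeats 400000

open Filter Topology

namespace Pool.Agent.KO.Q

/-- Q01: an invariant monomial is a product of the chosen ones; the number of factors is at least
the degree divided by a constant. -/
def SpWord : Prop := ∀ (ι : Type) [Fintype ι] [Nonempty ι] (a : ℕ) (β : ι → ℕ), 0 < a →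
  ∀ γ : ι → ℕ, a ∣ ∑ j, γ j * β j → ∃ (k : ℕ) (w : ℕ → Ix a β),
    ∑ j, γ j ≤ Fintype.card ι * a * k ∧
    ∀ q : ι → ℂ, ∏ j, q j ^ γ j = ∏ i ∈ Finset.range k, cc a β q (w i)

/-- Q02: the expansion of an invariant analytic function at `0` in invariant words. -/
def SpExp : Prop := ∀ (ι : Type) [Fintype ι] (a : ℕ) (β : ι → ℕ), 0 < a →
  ∀ F : (ι → ℂ) → ℂ, AnalyticAt ℂ F 0 →
  (∀ ζ : ℂ, ζ ^ a = 1 → ∀ᶠ q in 𝓝 (0 : ι → ℂ), F (rot β ζ q) = F q) →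
  ∃ (σ : ℝ) (b : Wd ι → ℂ), 0 < σ ∧ σ < 1 ∧ (Summable fun x : Wd ι => ‖b x‖ * σ ^ x.1) ∧
    (∀ x : Wd ι, ¬ a ∣ ∑ i, β (x.2 i) → b x = 0) ∧
    ∀ᶠ q in 𝓝 (0 : ι → ℂ), HasSum (fun x : Wd ι => b x * ∏ i, q (x.2 i)) (F q)

/-- Q03: power series indexed by words. -/
def SpSer : Prop := ∀ (κ : Type) [Fintype κ] (X : Type) (b : X → ℂ) (k : X → ℕ) (w : X → ℕ → κ)
  (σ : ℝ), 0 < σ → (Summable fun x => ‖b x‖ * σ ^ k x) → (∀ K, {x | k x ≤ K}.Finite) →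
  ∃ G : (κ → ℂ) → ℂ, AnalyticAt ℂ G 0 ∧
    ∀ᶠ y in 𝓝 (0 : κ → ℂ), HasSum (fun x => b x * ∏ i ∈ Finset.range (k x), y (w x i)) (G y)

/-- Q04: invariant analytic functions at `0`. -/
def SpZero : Prop := ∀ (ι : Type) [Fintype ι] [Nonempty ι] (a : ℕ) (β : ι → ℕ), 0 < a →
  ∀ F : (ι → ℂ) → ℂ, AnalyticAt ℂ F 0 →
  (∀ ζ : ℂ, ζ ^ a = 1 → ∀ᶠ q in 𝓝 (0 : ι → ℂ), F (rot β ζ q) = F q) →
  ∃ G : (Ix a β → ℂ) → ℂ, AnalyticAt ℂ G 0 ∧ ∀ᶠ q in 𝓝 (0 : ι → ℂ), F q = G (cc a β q)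

/-- Q05: local roots. -/
def SpRoot : Prop := ∀ (a : ℕ) (c : ℂ), 0 < a → c ≠ 0 →
  ∃ R : ℂ → ℂ, AnalyticAt ℂ R (c ^ a) ∧ R (c ^ a) = c ∧ ∀ᶠ t in 𝓝 c, R (t ^ a) = t

/-- Q06: the stabilizer of `p`. -/
def SpSt : Prop := ∀ (ι : Type) [Fintype ι] (a : ℕ) (β : ι → ℕ) (p : ι → ℂ), 0 < a →
  0 < st a β p ∧ st a β p ∣ a ∧ (∀ j, p j ≠ 0 → st a β p ∣ β j) ∧
  (∀ ζ : ℂ, ζ ^ a = 1 → (ζ ^ st a β p = 1 ↔ rot β ζ p = p)) ∧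
  ∀ N : ℕ, st a β p ∣ N →
    ∃ δ : ι → ℕ, (∀ j, p j = 0 → δ j = 0) ∧ a ∣ N + ∑ j, δ j * β j

/-- Q07: monomials that are invariant under the stabilizer of `p`. -/
def SpMon : Prop := ∀ (ι : Type) [Fintype ι] [Nonempty ι] (a : ℕ) (β : ι → ℕ) (p : ι → ℂ),
  0 < a → ∀ γ : ι → ℕ, st a β p ∣ ∑ j, γ j * β j →
  ∃ G : (Ix a β → ℂ) → ℂ, AnalyticAt ℂ G (cc a β p) ∧
    ∀ᶠ q in 𝓝 p, ∏ j, (q j - p j) ^ γ j = G (cc a β q)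

/-- Q08: functions that are invariant under the stabilizer of `p`. -/
def SpInv : Prop := ∀ (ι : Type) [Fintype ι] [Nonempty ι] (a : ℕ) (β : ι → ℕ) (p : ι → ℂ),
  0 < a → ∀ F : (ι → ℂ) → ℂ, AnalyticAt ℂ F p →
  (∀ ζ : ℂ, ζ ^ st a β p = 1 → ∀ᶠ q in 𝓝 p, F (rot β ζ q) = F q) →
  ∃ G : (Ix a β → ℂ) → ℂ, AnalyticAt ℂ G (cc a β p) ∧ ∀ᶠ q in 𝓝 p, F q = G (cc a β q)

/-- Q09: invariant polynomials are functions of `cc`. -/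
def SpPoly : Prop := ∀ (ι : Type) [Fintype ι] [Nonempty ι] (a : ℕ) (β : ι → ℕ), 0 < a →
  ∀ P : MvPolynomial ι ℂ,
  (∀ ζ : ℂ, ζ ^ a = 1 →
    MvPolynomial.aeval (fun j => MvPolynomial.C (ζ ^ β j) * MvPolynomial.X j) P = P) →
  ∃ Q : MvPolynomial (Ix a β) ℂ, ∀ q, MvPolynomial.eval q P = MvPolynomial.eval (cc a β q) Q

/-- Q10: two points with the same linear projections up to roots of unity. -/
def SpOrb : Prop := ∀ (ι : Type) [Fintype ι] (a : ℕ) (β : ι → ℕ), 0 < a → ∀ p q : ι → ℂ,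
  (∀ l : ι → ℂ, ∃ ζ : ℂ, ζ ^ a = 1 ∧ ∑ j, l j * q j = ∑ j, l j * rot β ζ p j) →
  ∃ ζ : ℂ, ζ ^ a = 1 ∧ q = rot β ζ p

/-- Q11: the fibres are the orbits. -/
def SpFib : Prop := ∀ (ι : Type) [Fintype ι] [Nonempty ι] (a : ℕ) (β : ι → ℕ), 0 < a →
  ∀ p q : ι → ℂ, cc a β p = cc a β q ↔ ∃ ζ : ℂ, ζ ^ a = 1 ∧ q = rot β ζ p

/-- Q12: analytic and proper. -/
def SpProp : Prop := ∀ (ι : Type) [Fintype ι] [Nonempty ι] (a : ℕ) (β : ι → ℕ), 0 < a →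
  (∀ p, AnalyticAt ℂ (cc a β) p) ∧ (∀ (ζ : ℂ) (p : ι → ℂ), AnalyticAt ℂ (rot β ζ) p) ∧
  IsProperMap (cc a β)

/-- Q13: neighbourhoods of orbits. -/
def SpNhd : Prop := ∀ (ι : Type) [Fintype ι] [Nonempty ι] (a : ℕ) (β : ι → ℕ), 0 < a →
  ∀ (p : ι → ℂ), ∀ U ∈ 𝓝 p, ∀ᶠ y in 𝓝 (cc a β p), ∀ q, cc a β q = y →
    ∃ ζ : ℂ, ζ ^ a = 1 ∧ rot β ζ q ∈ U

/-- Q14: invariant functions. -/
def SpFun : Prop := ∀ (ι : Type) [Fintype ι] [Nonempty ι] (a : ℕ) (β : ι → ℕ), 0 < a →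
  ∀ M : Set (ι → ℂ), (∀ ζ : ℂ, ζ ^ a = 1 → ∀ q ∈ M, rot β ζ q ∈ M) →
  ∀ f : (ι → ℂ) → ℂ, (∀ ζ : ℂ, ζ ^ a = 1 → ∀ q ∈ M, f (rot β ζ q) = f q) →
  ∀ p : ι → ℂ, AnFunAt M f p →
  ∃ G : (Ix a β → ℂ) → ℂ, AnalyticAt ℂ G (cc a β p) ∧
    ∀ᶠ y in 𝓝 (cc a β p), ∀ q ∈ M, cc a β q = y → f q = G y

/-- Q15: extension of homomorphisms to integral extensions. -/
def SpLift : Prop := ∀ (S : Type) [CommRing S] [Algebra ℂ S] (R : Subalgebra ℂ S),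
  (∀ x : S, IsIntegral R x) → ∀ ψ : R →ₐ[ℂ] ℂ, ∃ φ : S →ₐ[ℂ] ℂ, ∀ r : R, φ (r : S) = ψ r

/-- Q16: the image of the quotient map is algebraic. -/
def SpImg : Prop := ∀ (ι : Type) [Fintype ι] [Nonempty ι] (a : ℕ) (β : ι → ℕ), 0 < a →
  ∃ (m : ℕ) (P : Fin m → MvPolynomial (Ix a β) ℂ), ∀ y : Ix a β → ℂ,
    y ∈ Set.range (cc a β) ↔ ∀ i, MvPolynomial.eval y (P i) = 0

/-- Q17: images of invariant analytic sets. -/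
def SpSet : Prop := ∀ (ι : Type) [Fintype ι] [Nonempty ι] (a : ℕ) (β : ι → ℕ), 0 < a →
  ∀ M : Set (ι → ℂ), (∀ ζ : ℂ, ζ ^ a = 1 → ∀ q ∈ M, rot β ζ q ∈ M) →
  ∀ p : ι → ℂ, AnSetAt M p → AnSetAt (cc a β '' M) (cc a β p)

end Pool.Agent.KO.Q
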